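import Pool.Agent.Y504.CO.Plug

/-!
# Cycles of periodic orbits of `Ω`-stable diffeomorphisms

If all connecting orbits of a cycle lie outside of the closure of the periodic points, then a small
perturbation near these orbits has more periodic points.
-/

set_option autoImplicit false
set_option linter.unusedSectionVars false
set_option linter.unusedVariables false

open scoped Manifold ContDiff Topology
open Filter Set Metric

universe u

namespace Run7.h619.AA

open Pool.Agent.H718R2.G Pool.Agent.W564.SC Pool.Agent.TH290.CL Pool.Agent.TH80.CLX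
  Pool.Agent.TH80.OMS Pool.Agent.Y504.CO Pool.Agent.Y929.CO

section dyn

variable {X : Type u} {f : X → X} [TopologicalSpace X] [T2Space X]

/-- one step: the map is changed near two points -/
theorem dat_step3 {k : ℕ} {p : ℕ → X} {x : ℕ → ℤ → X} (D : Dat f (k + 1) p x)
    (hf : Function.Injective f) {g : X → X} (hg : ∀ y ∈ CC f (k + 1) p x, g y = f y) {m : ℕ}
    (hm : g^[m + 1] (x 0 0) = x 1 1) :
    ∃ x', Dat g k (fun i => if i = 0 then p 0 else p (i + 1)) x' ∧ x' 0 0 = x 0 0 ∧
      ∀ i, i ≠ 0 → x' i = x (i + 1) := by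
  -- the orbits which do not change
  have horb : ∀ l ≤ k + 1, ∀ j : ℕ, g^[j] (p l) = f^[j] (p l) := by
    intro l hl j
    induction j with
    | zero => rfl
    | succ j ih =>
      rw [Function.iterate_succ_apply', Function.iterate_succ_apply', ih]
      exact hg _ (orb_cc D hl ⟨j, rfl⟩)
  have horb2 : ∀ l ≤ k + 1, orb g (p l) = orb f (p l) := by
    intro l hl
    unfold orb
    congr 1
    funext j
    exact horb l hl j
  have hper : ∀ l ≤ k + 1, p l ∈ Per g := by
    intro l hl
    obtain ⟨m, hm, hmp⟩ := D.per l hl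
    exact ⟨m, hm, by rw [horb l hl, hmp]⟩
  -- the new orbit
  obtain ⟨y, hy⟩ : ∃ y : ℤ → X, y = fun j => if j ≤ 0 then x 0 j else g^[j.toNat] (x 0 0) :=
    ⟨_, rfl⟩
  have hy1 : ∀ j, j ≤ 0 → y j = x 0 j := fun j hj => by rw [hy]; exact if_pos hj
  have hy2 : ∀ j, 0 ≤ j → y j = g^[j.toNat] (x 0 0) := by
    intro j hj
    rcases eq_or_lt_of_le hj with h | h
    · rw [← h, hy1 0 le_rfl]
      rfl
    · rw [hy]
      exact if_neg (by omega)
  have hyf : ∀ j, g (y j) = y (j + 1) := by
    intro j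
    rcases lt_or_ge j 0 with h | h
    · rw [hy1 j h.le, hy1 (j + 1) (by omega), hg _ (img_cc D (by omega) (Or.inr h.ne)),
        D.full 0 (by omega)]
    · rw [hy2 j h, hy2 (j + 1) (by omega)]
      have e : (j + 1).toNat = j.toNat + 1 := by omega
      rw [e, Function.iterate_succ_apply']
  have hfar : ∀ n : ℕ, g^[n + (m + 1)] (x 0 0) = x 1 (n + 1) := by
    intro n
    induction n with
    | zero => rw [zero_add, hm]; simp
    | succ n ih =>
      have e : n + 1 + (m + 1) = (n + (m + 1)) + 1 := by ring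
      rw [e, Function.iterate_succ_apply', ih, hg _ (img_cc D (by omega) (Or.inr (by omega))),
        D.full 1 (by omega)]
      congr 1
  have hytop : ∀ j : ℤ, (m : ℤ) + 1 ≤ j → y j = x 1 (j - m) := by
    intro j hj
    rw [hy2 j (by omega)]
    have e : j.toNat = (j - m - 1).toNat + (m + 1) := by omega
    rw [e, hfar]
    congr 1
    omega
  refine ⟨fun i => if i = 0 then y else x (i + 1), ⟨?_, ?_, ?_, ?_, ?_, ?_⟩, ?_, ?_⟩
  · intro i hi
    split_ifs with h
    · exact hper 0 (by omega)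
    · exact hper (i + 1) (by omega)
  · intro i hi j hj hij
    split_ifs with h h' h'
    · omega
    · rw [horb2 0 (by omega), horb2 (j + 1) (by omega)]
      exact D.dis _ (by omega) _ (by omega) (by omega)
    · rw [horb2 0 (by omega), horb2 (i + 1) (by omega)]
      exact D.dis _ (by omega) _ (by omega) (by omega)
    · rw [horb2 (i + 1) (by omega), horb2 (j + 1) (by omega)]
      exact D.dis _ (by omega) _ (by omega) (by omega)
  · intro i hi j
    split_ifs with h
    · exact hyf j
    · rw [hg _ (img_cc D (by omega) (Or.inl (by omega))), D.full (i + 1) (by omega)]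
  · intro i hi O hO hpO
    beta_reduce at hpO ⊢
    split_ifs with h
    · rw [if_pos h, horb2 0 (by omega)] at hpO
      filter_upwards [D.bot 0 (by omega) O hO hpO, eventually_le_atBot (0 : ℤ)] with j hj hj0
      rw [hy1 j hj0]
      exact hj
    · rw [if_neg h, horb2 (i + 1) (by omega)] at hpO
      exact D.bot (i + 1) (by omega) O hO hpO
  · intro i hi O hO hpO
    beta_reduce at hpO ⊢
    split_ifs with h
    · subst h
      have hpO' : orb f (p (nx (k + 1) 1)) ⊆ O := by
        rw [← horb2 _ nx_le]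
        refine Eq.trans_subset ?_ hpO
        congr 1
        unfold nx
        by_cases hk : 0 < k
        · rw [if_pos hk, if_pos (by omega : 1 < k + 1), if_neg (by omega)]
        · rw [if_neg hk, if_neg (by omega : ¬ 1 < k + 1), if_pos rfl]
      obtain ⟨A, hA⟩ := eventually_atTop.1 (D.top 1 (by omega) O hO hpO')
      rw [eventually_atTop]
      refine ⟨max (A + m) (m + 1), fun j hj => ?_⟩
      rw [hytop j (by omega)]
      exact hA _ (by omega)
    · have hpO' : orb f (p (nx (k + 1) (i + 1))) ⊆ O := by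
        rw [← horb2 _ nx_le]
        refine Eq.trans_subset ?_ hpO
        congr 1
        unfold nx
        by_cases hk : i < k
        · rw [if_pos hk, if_pos (by omega : i + 1 < k + 1), if_neg (by omega)]
        · rw [if_neg hk, if_neg (by omega : ¬ i + 1 < k + 1), if_pos rfl]
      exact D.top (i + 1) (by omega) O hO hpO'
  · intro i hi
    split_ifs with h
    · rw [horb2 0 (by omega), hy1 0 le_rfl]
      exact D.off 0 (by omega)
    · rw [horb2 (i + 1) (by omega)]
      exact D.off (i + 1) (by omega)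
  · show (if 0 = 0 then y else x (0 + 1)) 0 = x 0 0
    rw [if_pos rfl, hy1 0 le_rfl]
  · intro i hi
    show (if i = 0 then y else x (i + 1)) = x (i + 1)
    rw [if_neg hi]

end dyn

/-- points near `z` can be moved to one another by small perturbations near `z` -/
theorem push1 {n : ℕ} {N : Type u} [TopologicalSpace N] [T2Space N] [CompactSpace N]
    [ChartedSpace (V n) N] [IsManifold (𝓡 n) ∞ N] {r : ℕ∞} (hr : 1 ≤ r) {f : DiffM n N r}
    {U : Set (DiffM n N r)} (hU : IsOpen[strongTop n N r] U) (hfU : f ∈ U) (z : N) (O : Set N)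
    (hO : IsOpen O) (hz : z ∈ O) : ∃ W ∈ 𝓝 z, ∀ a ∈ W, ∀ b ∈ W, ∃ (Φ : N → N) (g : DiffM n N r),
      g ∈ U ∧ (∀ y, g y = f (Φ y)) ∧ Φ a = b ∧ ∀ y, y ∉ O → Φ y = y := by
  obtain ⟨χ, hχ, hχO⟩ := small_chart (n := n) z O hO hz
  obtain ⟨F, F', κ, hκ, hF, hFm⟩ := trans_family n
  obtain ⟨hs1, hs1', hi1, hi1'⟩ := P2.tr_diff hχ hF
  have hr' : ((r : ℕ∞) : WithTop ℕ∞) ≤ ∞ := by exact_mod_cast le_top
  have c1 : ∀ x : V n, ContMDiff (𝓡 n) (𝓡 n) ∞ (tr χ F x) := fun x =>
    hs1.comp (contMDiff_const.prodMk contMDiff_id)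
  have c1' : ∀ x : V n, ContMDiff (𝓡 n) (𝓡 n) ∞ (tr χ F' x) := fun x =>
    hs1'.comp (contMDiff_const.prodMk contMDiff_id)
  let Ψ : V n → DiffM n N r := fun x =>
    ⟨⟨fun y => tr χ F x y, fun y => tr χ F' x y, fun y => hi1 x y, fun y => hi1' x y⟩,
      (c1 x).of_le hr', (c1' x).of_le hr'⟩
  have hΨ : ∀ x y, Ψ x y = tr χ F x y := fun x y => rfl
  have hfam : IsFam n N r (fun x : V n => (Ψ x).trans f) := by
    intro y
    exact (f.contMDiff.comp (hs1.of_le hr')).contMDiffAt
  have h0 : (Ψ 0).trans f = f := by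
    ext y
    show f (tr χ F 0 y) = f y
    by_cases hy : y ∈ χ.source
    · rw [tr_source hy, hF.zero, χ.left_inv hy]
    · rw [tr_not_source hy]
  have h0U : (fun x : V n => (Ψ x).trans f) 0 ∈ U := by
    show (Ψ 0).trans f ∈ U
    rw [h0]
    exact hfU
  obtain ⟨κ₁, hκ₁, hmem⟩ := fam_mem r hr (fun x : V n => (Ψ x).trans f) hfam z U hU h0U
  obtain ⟨c, hc⟩ : ∃ c : ℝ, c = min (min κ κ₁) (1 / 4) / 2 := ⟨_, rfl⟩
  have hm0 : 0 < min (min κ κ₁) (1 / 4) := by positivity
  have hc0 : 0 < c := by rw [hc]; positivity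
  have hz0 : χ z = 0 := hχ.zero
  refine ⟨{y | y ∈ χ.source ∧ ‖χ y‖ < c}, ?_, ?_⟩
  · refine inter_mem (χ.open_source.mem_nhds hχ.src) ?_
    have h1 : ContinuousAt (fun y => ‖χ y‖) z := (χ.continuousAt hχ.src).norm
    have k1 : ‖χ z‖ < c := by rw [hz0, norm_zero]; exact hc0
    exact h1.eventually (gt_mem_nhds k1)
  rintro a ⟨ha1, ha2⟩ b ⟨hb1, hb2⟩
  have hxn : ‖χ b - χ a‖ < min (min κ κ₁) (1 / 4) := by
    have := norm_sub_le (χ b) (χ a)
    linarith
  refine ⟨fun y => Ψ (χ b - χ a) y, (Ψ (χ b - χ a)).trans f,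
    hmem _ (hxn.trans_le ((min_le_left _ _).trans (min_le_right _ _))), fun y => rfl, ?_, ?_⟩
  · show tr χ F (χ b - χ a) a = b
    rw [tr_source ha1, hFm _ _ (hxn.trans_le ((min_le_left _ _).trans (min_le_left _ _)))
      (by
        have := min_le_right (min κ κ₁) (1 / 4)
        linarith), add_sub_cancel, χ.left_inv hb1]
  · intro y hy
    show tr χ F (χ b - χ a) y = y
    rw [tr_not_source (fun h => hy (hχO h))]

section

variable {n : ℕ} {N : Type u} [TopologicalSpace N] [ChartedSpace (V n) N] {r : ℕ∞}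

/-- the periodic points do not change -/
theorem per_eq {g g' : DiffM n N r} {Φ : N → N} (hg' : ∀ y, g' y = g (Φ y))
    (hΦ : ∀ y ∈ Per g, Φ y = y)
    (hfin : ∀ k : ℕ, 1 ≤ k → {x | g'^[k] x = x}.Finite)
    (hcard : ∀ k : ℕ, 1 ≤ k → Set.ncard {x | g^[k] x = x} = Set.ncard {x | g'^[k] x = x}) :
    Per g' = Per g := by
  have hit : ∀ y ∈ Per g, ∀ j : ℕ, g'^[j] y = g^[j] y := by
    intro y hy j
    induction j with
    | zero => rfl
    | succ j ih =>
      have h1 : g^[j] y ∈ Per g := by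
        obtain ⟨m, hm, hmy⟩ := hy
        refine ⟨m, hm, ?_⟩
        rw [← Function.iterate_add_apply, add_comm, Function.iterate_add_apply, hmy]
      rw [Function.iterate_succ_apply', ih, hg', hΦ _ h1, Function.iterate_succ_apply']
  have hset : ∀ k : ℕ, 1 ≤ k → {x | g^[k] x = x} = {x | g'^[k] x = x} := by
    intro k hk
    refine Set.eq_of_subset_of_ncard_le ?_ (hcard k hk).symm.le (hfin k hk)
    intro x hx
    show g'^[k] x = x
    rw [hit x ⟨k, hk, hx⟩]
    exact hx
  ext x
  constructor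
  · rintro ⟨k, hk, hx⟩
    have h1 : x ∈ {x | g'^[k] x = x} := hx
    rw [← hset k hk] at h1
    exact ⟨k, hk, h1⟩
  · rintro ⟨k, hk, hx⟩
    have h1 : x ∈ {x | g^[k] x = x} := hx
    rw [hset k hk] at h1
    exact ⟨k, hk, h1⟩

end

/-- **Cycles.** -/
theorem no_dat {n : ℕ} {N : Type u} [TopologicalSpace N] [T2Space N] [CompactSpace N]
    [ChartedSpace (V n) N] [IsManifold (𝓡 n) ∞ N] {r : ℕ∞} (hr : 1 ≤ r)
    {U : Set (DiffM n N r)} (hU : IsOpen[strongTop n N r] U)
    (hfin : ∀ g ∈ U, ∀ k : ℕ, 1 ≤ k → {x | g^[k] x = x}.Finite)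
    (hcard : ∀ g ∈ U, ∀ g' ∈ U, ∀ k : ℕ, 1 ≤ k →
      Set.ncard {x | g^[k] x = x} = Set.ncard {x | g'^[k] x = x})
    (hyp : ∀ g ∈ U, ∀ p ∈ Per g, HypAt n g p) (k : ℕ) : ∀ g ∈ U, ∀ (p : ℕ → N) (x : ℕ → ℤ → N),
      Dat g k p x → (∀ i ≤ k, x i 0 ∉ closure (Per g)) → False := by
  induction k with
  | zero =>
    intro g hg p x D hx
    have hgi : Function.Injective g := g.injective
    have hC := cc_closed D
    have h0 := not_cc D hgi (i := 0) (by omega) (by omega)
    obtain ⟨t, ht, htc, hts⟩ := exists_mem_nhds_isClosed_subset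
      (Filter.inter_mem (hC.isOpen_compl.mem_nhds h0)
        (isClosed_closure.isOpen_compl.mem_nhds (hx 0 le_rfl)))
    have hCO : CC g 0 p x ⊆ tᶜ := fun y hy h => (hts h).1 hy
    have hPO : ∀ y ∈ Per g, y ∉ t := fun y hy h => (hts h).2 (subset_closure hy)
    obtain ⟨W, hW, hPW⟩ := push1 hr hU hg (x 0 0) (interior t) isOpen_interior
      (mem_interior_iff_mem_nhds.2 ht)
    have hcn : OmegaTo g (x 0 0) (p 0) := by
      intro O hO hpO
      have e : nx 0 0 = 0 := by unfold nx; rfl
      obtain ⟨M, hM⟩ := eventually_atTop.1 (D.top 0 le_rfl O hO (by rw [e]; exact hpO))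
      rw [eventually_atTop]
      refine ⟨M.toNat, fun j hj => ?_⟩
      rw [full_nat (D.full 0 le_rfl), zero_add]
      exact hM j (by omega)
    obtain ⟨s', hs', m, hm, hms, hmid⟩ := Plug.hLINK n N r hr g (p 0) (D.per 0 le_rfl)
      (hyp g hg _ (D.per 0 le_rfl)) (x 0 0) (x 0) hcn
      (dat_off D hgi le_rfl 0 le_rfl) (D.full 0 le_rfl) (D.bot 0 le_rfl)
      (D.off 0 le_rfl) tᶜ htc.isOpen_compl
      ((orb_cc D le_rfl).trans hCO) (by
        intro i hi
        rw [full_nat (D.full 0 le_rfl), zero_add]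
        exact hCO (img_cc D le_rfl (Or.inr (by omega)))) (by
        intro i hi
        exact hCO (img_cc D le_rfl (Or.inr (by omega)))) (W ∩ interior t)
      (Filter.inter_mem hW (isOpen_interior.mem_nhds (mem_interior_iff_mem_nhds.2 ht)))
      (W ∩ interior t)
      (Filter.inter_mem hW (isOpen_interior.mem_nhds (mem_interior_iff_mem_nhds.2 ht)))
    obtain ⟨Φ, g', hg'U, hg', hΦ1, hΦ2⟩ := hPW _ hms.1 s' hs'.1
    have hΦC : ∀ y ∈ tᶜ, Φ y = y := fun y hy => hΦ2 y (fun h => hy (interior_subset h))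
    have hper := per_eq hg' (fun y hy => hΦC y (hPO y hy)) (hfin g' hg'U) (hcard g hg g' hg'U)
    -- the new periodic point
    obtain ⟨a, ha⟩ : ∃ a, a = g^[m] s' := ⟨_, rfl⟩
    have hnew : ∀ i : ℕ, i < m → g'^[i + 1] a = g^[i + 1] s' := by
      intro i
      induction i with
      | zero =>
        intro _
        show g' a = g s'
        rw [hg', ha, hΦ1]
      | succ i ih2 =>
        intro hi
        rw [Function.iterate_succ_apply', ih2 (by omega), hg', hΦC _ (hmid (i + 1) (by omega) hi),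
          Function.iterate_succ_apply' g (i + 1)]
    have hfix : g'^[m] a = a := by
      have h2 := hnew (m - 1) (by omega)
      have e : m - 1 + 1 = m := by omega
      rw [e] at h2
      rw [h2, ha]
    have h3 : a ∈ Per g := by
      rw [← hper]
      exact ⟨m, hm, hfix⟩
    apply hPO a h3
    rw [ha]
    exact interior_subset hms.2
  | succ k ih =>
    intro g hg p x D hx
    have hgi : Function.Injective g := g.injective
    have hC := cc_closed D
    have h0 := not_cc D hgi (i := 0) (by omega) (by omega)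
    have h1 := not_cc D hgi (i := 1) (by omega) (by omega)
    have h01 : x 0 0 ≠ x 1 0 := ne_of_disjoint hgi (D.full 0 (by omega)) (D.full 1 (by omega))
      (D.per 0 (by omega)) (D.per 1 (by omega)) (D.bot 0 (by omega)) (D.bot 1 (by omega))
      (D.dis 0 (by omega) 1 (by omega) (by omega)) 0 0
    -- neighbourhoods
    obtain ⟨A, B, hA, hB, hzA, hzB, hAB⟩ := t2_separation h01
    obtain ⟨t0, ht0, ht0c, ht0s⟩ := exists_mem_nhds_isClosed_subset
      (Filter.inter_mem (Filter.inter_mem (hC.isOpen_compl.mem_nhds h0) (hA.mem_nhds hzA))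
        (isClosed_closure.isOpen_compl.mem_nhds (hx 0 (by omega))))
    obtain ⟨t1, ht1, ht1c, ht1s⟩ := exists_mem_nhds_isClosed_subset
      (Filter.inter_mem (Filter.inter_mem (hC.isOpen_compl.mem_nhds h1) (hB.mem_nhds hzB))
        (isClosed_closure.isOpen_compl.mem_nhds (hx 1 (by omega))))
    have hCO : CC g (k + 1) p x ⊆ (t0 ∪ t1)ᶜ := by
      rintro y hy (h | h)
      · exact (ht0s h).1.1 hy
      · exact (ht1s h).1.1 hy
    have hPO : ∀ y ∈ Per g, y ∈ (t0 ∪ t1)ᶜ := by
      rintro y hy (h | h)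
      · exact (ht0s h).2 (subset_closure hy)
      · exact (ht1s h).2 (subset_closure hy)
    obtain ⟨W, hW, W', hW', hPW⟩ := Plug.hP2 n N r hr g U hU hg (x 0 0) (x 1 0) (interior t0)
      (interior t1) isOpen_interior isOpen_interior (mem_interior_iff_mem_nhds.2 ht0)
      (mem_interior_iff_mem_nhds.2 ht1) (by
        rw [Set.disjoint_left]
        intro y hy hy'
        exact Set.disjoint_left.1 hAB (ht0s (interior_subset hy)).1.2
          (ht1s (interior_subset hy')).1.2)
    have hcn : OmegaTo g (x 0 0) (p 1) := by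
      intro O hO hpO
      have e : nx (k + 1) 0 = 1 := by
        unfold nx
        rw [if_pos (by omega)]
      obtain ⟨M, hM⟩ := eventually_atTop.1 (D.top 0 (by omega) O hO (by rw [e]; exact hpO))
      rw [eventually_atTop]
      refine ⟨M.toNat, fun j hj => ?_⟩
      rw [full_nat (D.full 0 (by omega)), zero_add]
      exact hM j (by omega)
    obtain ⟨s', hs', m, hm, hms, hmid⟩ := Plug.hLINK n N r hr g (p 1) (D.per 1 (by omega))
      (hyp g hg _ (D.per 1 (by omega))) (x 0 0) (x 1) hcn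
      (dat_off D hgi (by omega) 0 (by omega)) (D.full 1 (by omega)) (D.bot 1 (by omega))
      (D.off 1 (by omega)) (t0 ∪ t1)ᶜ (ht0c.union ht1c).isOpen_compl
      ((orb_cc D (by omega)).trans hCO) (by
        intro i hi
        rw [full_nat (D.full 0 (by omega)), zero_add]
        exact hCO (img_cc D (by omega) (Or.inr (by omega)))) (by
        intro i hi
        exact hCO (img_cc D (by omega) (Or.inr (by omega)))) W hW W' hW'
    obtain ⟨Φ, g', hg'U, hg', hΦ1, hΦ2, hΦ3⟩ := hPW s' hs' _ hms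
    have hΦC : ∀ y ∈ (t0 ∪ t1)ᶜ, Φ y = y := by
      intro y hy
      exact hΦ3 y (fun h => hy (Or.inl (interior_subset h)))
        (fun h => hy (Or.inr (interior_subset h)))
    have hper := per_eq hg' (fun y hy => hΦC y (hPO y hy)) (hfin g' hg'U) (hcard g hg g' hg'U)
    -- the new orbit
    have hnew : ∀ i : ℕ, i < m → g'^[i + 1] (x 0 0) = g^[i + 1] s' := by
      intro i
      induction i with
      | zero =>
        intro _
        show g' (x 0 0) = g s'
        rw [hg', hΦ1]
      | succ i ih2 =>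
        intro hi
        rw [Function.iterate_succ_apply', ih2 (by omega), hg', hΦC _ (hmid (i + 1) (by omega) hi),
          Function.iterate_succ_apply' g (i + 1)]
    have hlast : g'^[m + 1] (x 0 0) = x 1 1 := by
      have h2 := hnew (m - 1) (by omega)
      have e : m - 1 + 1 = m := by omega
      rw [e] at h2
      rw [Function.iterate_succ_apply', h2, hg', hΦ2, D.full 1 (by omega)]
      rfl
    obtain ⟨x', D', hx'0, hx'1⟩ := dat_step3 D hgi (g := g')
      (fun y hy => by rw [hg', hΦC y (hCO hy)]) hlast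
    refine ih g' hg'U _ x' D' (fun i hi => ?_)
    rw [hper]
    by_cases h : i = 0
    · rw [h, hx'0]
      exact hx 0 (by omega)
    · rw [hx'1 i h]
      exact hx (i + 1) (by omega)

/-- For an `Ω`-stable `F`: at least one of the connecting orbits of a cycle of periodic orbits consists
of limits of periodic points. -/
theorem stable_cyc {n : ℕ} {N : Type u} [TopologicalSpace N] [T2Space N] [CompactSpace N]
    [ChartedSpace (V n) N] [IsManifold (𝓡 n) ∞ N] {r : ℕ∞} (hr : 1 ≤ r) {F : DiffM n N r}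
    (hF : OmegaStable n N r F) {k : ℕ} {p : ℕ → N} {x : ℕ → ℤ → N} (D : Dat F k p x) :
    ∃ i ≤ k, x i 0 ∈ closure (Per F) := by
  obtain ⟨U₁, hU₁, hFU₁, hfin⟩ := finite_per hr hF
  obtain ⟨U₀, hU₀, hFU₀, hconj⟩ := id hF
  obtain ⟨U₂, hU₂, hFU₂, -, hhyp⟩ := stable_hyp Plug.hF2 hr hF
  have hU : IsOpen[strongTop n N r] (U₀ ∩ U₁ ∩ U₂) :=
    @IsOpen.inter _ (strongTop n N r) _ _ (@IsOpen.inter _ (strongTop n N r) _ _ hU₀ hU₁) hU₂
  by_contra hcon
  push Not at hcon
  refine no_dat hr hU (fun g hg => hfin g hg.1.2) ?_ (fun g hg => hhyp g hg.2) k F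
    ⟨⟨hFU₀, hFU₁⟩, hFU₂⟩ p x D hcon
  intro g hg g' hg' k hk
  rw [← ncard_conj F.continuous g.continuous (hconj g hg.1.1) hk,
    ← ncard_conj F.continuous g'.continuous (hconj g' hg'.1.1) hk]

end Run7.h619.AA
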