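import Pool.Agent.Run7.h619.AA.Defs

/-!
# Spectral decomposition, cycles, the class `U_3`: definitions
-/

set_option autoImplicit false

open Filter
open scoped Manifold ContDiff Topology

namespace Run7.h619.AA

open Pool.Agent.H718R2.G Pool.Agent.TH80.OMS

section

variable {n : ℕ} {N : Type*} [TopologicalSpace N] [ChartedSpace (V n) N] {r : ℕ∞}

/-- `W^s(P)` for the map `f`: the points `y` such that `f^m(x)` and `f^m(y)`, `m → ∞`, come together, for
some `x ∈ P`. (On a compact metric space: `d(f^m(x), f^m(y)) → 0`.) -/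
def WS (f : N → N) (P : Set N) : Set N :=
  {y | ∃ x ∈ P, ∀ O : Set (N × N), IsOpen O → (∀ z, (z, z) ∈ O) →
    ∀ᶠ m : ℕ in atTop, (f^[m] x, f^[m] y) ∈ O}

/-- `P 0, ..., P (l - 1)` is the spectral decomposition of `Ω(F)`: these are disjoint closed invariant
sets, each of which contains a dense orbit, with union `Ω(F)`. -/
structure IsDecomp (F : DiffM n N r) {l : ℕ} (P : Fin l → Set N) : Prop where
  closed : ∀ i, IsClosed (P i)
  inv : ∀ i, F '' P i = P i
  disj : ∀ i j, i ≠ j → Disjoint (P i) (P j)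
  union : (⋃ i, P i) = Omega F
  dense : ∀ i, ∃ z ∈ P i, P i ⊆ closure (Set.range fun m : ℕ => F^[m] z)

/-- There is no cycle of `k + 1 > 1` different pieces `P (s 0), ..., P (s k)`, that is, with
`W^u(P (s i)) ∩ W^s(P (s (i + 1))) ≠ ∅` for `i < k`, and `W^u(P (s k)) ∩ W^s(P (s 0)) ≠ ∅`. -/
def NoCycle (F : DiffM n N r) {l : ℕ} (P : Fin l → Set N) : Prop :=
  ∀ (k : ℕ) (s : ℕ → Fin l), 1 ≤ k → (∀ i ≤ k, ∀ j ≤ k, s i = s j → i = j) →
    ¬ ((∀ i < k, (WS F.symm (P (s i)) ∩ WS F (P (s (i + 1)))).Nonempty) ∧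
      (WS F.symm (P (s k)) ∩ WS F (P (s 0))).Nonempty)

/-- The class `U_3`: Axiom A, and no cycles in the spectral decomposition. -/
def U3 [IsManifold (𝓡 n) ∞ N] (F : DiffM n N r) : Prop :=
  AxA F ∧ (∃ (l : ℕ) (P : Fin l → Set N), IsDecomp F P) ∧
    ∀ (l : ℕ) (P : Fin l → Set N), IsDecomp F P → NoCycle F P

end

end Run7.h619.AA
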