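import Pool.Agent.Run7.h619.AA.Indep

/-!
# The stable sets of skew products do not depend on the base point
-/

set_option autoImplicit false
set_option linter.unusedSectionVars false

open Filter Set Metric
open scoped Manifold ContDiff Topology

namespace Run7.h619.AA

open Pool.Agent.H718R2.G Pool.Agent.TH80.OMS Run7.h619.SK Run7.h619.AX Run7.h619.LA

/-- Birkhoff sums of blocks -/
theorem birk_block {d : ℕ} {B : Type*} (h : B → B) (c : B → V d) (L : ℕ) (y : B) (i : ℕ) :
    ∑ j ∈ Finset.range i, birkhoffSum h c L (h^[j * L] y) = birkhoffSum h c (i * L) y := by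
  induction i with
  | zero => simp
  | succ i ih =>
    rw [Finset.sum_range_succ, ih, add_mul, one_mul, birkhoffSum_add]

/-- the inverse system -/
theorem birk_inv {d : ℕ} {B : Type*} {h h' : B → B} (hinv : ∀ y, h (h' y) = y) (c : B → V d)
    (m : ℕ) (y : B) : birkhoffSum h' (fun y => -c (h' y)) m y = -birkhoffSum h c m (h'^[m] y) := by
  induction m with
  | zero => simp
  | succ m ih =>
    rw [birkhoffSum_succ, ih, birkhoffSum_succ']
    have e : h (h'^[m + 1] y) = h'^[m] y := by
      rw [Function.iterate_succ_apply', hinv]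
    rw [e, Function.iterate_succ_apply' h']
    abel

section

variable {d k : ℕ} {M B : Type*} [TopologicalSpace M] [ChartedSpace (V k) M]
  [IsManifold (𝓡 k) ∞ M] {φ : V d → M → M} [TopologicalSpace B] [CompactSpace B]

theorem stable_indep (hφ : IsAct d k M ⊤ φ) {x : M} (hx : ∀ t, φ t x = x) {h : B → B}
    (hh : Continuous h) {c : B → V d} (hc : Continuous c) {Es Eu : Submodule ℝ (V k)}
    (hsp : Spl (fun s => Dv k k (φ s) x) Es Eu) {C μ : ℝ} (hμ0 : 0 < μ) (hμ1 : μ < 1)
    (hs : ∀ (y : B) (m : ℕ), ∀ v ∈ Es, ‖Dv k k (φ (birkhoffSum h c m y)) x v‖ ≤ C * μ ^ m * ‖v‖)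
    (hu : ∀ (y : B) (m : ℕ), ∀ v ∈ Eu, ‖Dv k k (φ (-birkhoffSum h c m y)) x v‖ ≤ C * μ ^ m * ‖v‖)
    {u : M} {y : B} (hlim : Tendsto (fun m => φ (birkhoffSum h c m y) u) atTop (𝓝 x)) (q : B) :
    Tendsto (fun m => φ (birkhoffSum h c m q) u) atTop (𝓝 x) := by
  obtain ⟨L, hL1, hL⟩ : ∃ L : ℕ, 1 ≤ L ∧ C * μ ^ L ≤ 1 / 8 := by
    have h1 : Tendsto (fun L : ℕ => C * μ ^ L) atTop (𝓝 (C * 0)) :=
      (tendsto_pow_atTop_nhds_zero_of_lt_one hμ0.le hμ1).const_mul C
    rw [mul_zero] at h1
    have h2 := (h1.eventually (gt_mem_nhds (show (0 : ℝ) < 1 / 8 by norm_num))).and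
      (eventually_ge_atTop 1)
    obtain ⟨L, hL, hL1⟩ := h2.exists
    exact ⟨L, hL1, hL.le⟩
  have hbc : ∀ m, Continuous (fun y => birkhoffSum h c m y) := by
    intro m
    unfold birkhoffSum
    exact continuous_finset_sum _ fun i _ => hc.comp (hh.iterate i)
  obtain ⟨S, hS⟩ : ∃ S : Set (V d), S = range (fun y => birkhoffSum h c L y) := ⟨_, rfl⟩
  have hSc : IsCompact S := by rw [hS]; exact isCompact_range (hbc L)
  obtain ⟨src, A, Bf, ρ, Λ, hcone⟩ := exists_cone hφ hx hSc hsp (by
    intro s hs' v hv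
    rw [hS] at hs'
    obtain ⟨y, rfl⟩ := hs'
    exact (hs y L v hv).trans (mul_le_mul_of_nonneg_right hL (norm_nonneg _))) (by
    intro s hs' v hv
    rw [hS] at hs'
    obtain ⟨y, rfl⟩ := hs'
    exact (hu y L v hv).trans (mul_le_mul_of_nonneg_right hL (norm_nonneg _)))
  have hmem : ∀ y, birkhoffSum h c L y ∈ S := fun y => by rw [hS]; exact ⟨y, rfl⟩
  have horb : ∀ y i, orbS φ (fun j => birkhoffSum h c L (h^[j * L] y)) i u =
      φ (birkhoffSum h c (i * L) y) u := by
    intro y i
    unfold orbS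
    rw [birk_block]
  have h1 : Tendsto (fun i => orbS φ (fun j => birkhoffSum h c L (h^[j * L] y)) i u) atTop
      (𝓝 x) := by
    have h2 : Tendsto (fun i : ℕ => i * L) atTop atTop :=
      tendsto_id.atTop_mul_const' (by omega)
    refine (hlim.comp h2).congr fun i => ?_
    exact (horb y i).symm
  have h2 := hcone.indep hφ hx (fun i => hmem _) (t := fun j => birkhoffSum h c L (h^[j * L] q))
    (fun i => hmem _) h1
  simp only [horb] at h2
  -- all times
  obtain ⟨Bd, hBd⟩ := isCompact_univ.exists_bound_of_continuousOn hc.continuousOn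
  have hK : IsCompact (closedBall (0 : V d) (L * |Bd|)) := isCompact_closedBall _ _
  rw [tendsto_def]
  intro W hW
  have h3 : ∀ᶠ z in 𝓝 x, ∀ v ∈ closedBall (0 : V d) (L * |Bd|), φ v z ∈ W := by
    apply hK.eventually_forall_of_forall_eventually
    intro v _
    have hcont : Continuous fun p : M × V d => φ p.2 p.1 :=
      hφ.smooth.continuous.comp (continuous_snd.prodMk continuous_fst)
    apply (hcont.tendsto (x, v)).eventually
    show ∀ᶠ z in 𝓝 (φ v x), z ∈ W
    rw [hx]
    exact hW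
  obtain ⟨I, hI⟩ := eventually_atTop.1 (h2.eventually h3)
  filter_upwards [eventually_ge_atTop (I * L)] with m hm
  obtain ⟨i, s, hsL, hm'⟩ : ∃ i s : ℕ, s < L ∧ m = i * L + s :=
    ⟨m / L, m % L, Nat.mod_lt _ (by omega), by rw [mul_comm]; exact (Nat.div_add_mod m L).symm⟩
  have hi : I ≤ i := by
    by_contra hlt
    have h4 : i + 1 ≤ I := by omega
    have h5 : (i + 1) * L ≤ I * L := Nat.mul_le_mul_right L h4
    have h6 : (i + 1) * L = i * L + L := by ring
    omega
  have h4 := hI i hi (birkhoffSum h c s (h^[i * L] q)) (by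
    rw [mem_closedBall, dist_zero_right]
    unfold birkhoffSum
    refine (norm_sum_le _ _).trans ?_
    refine (Finset.sum_le_sum fun j _ => (hBd _ (mem_univ _)).trans (le_abs_self Bd)).trans ?_
    rw [Finset.sum_const, Finset.card_range, nsmul_eq_mul]
    apply mul_le_mul_of_nonneg_right _ (abs_nonneg _)
    exact_mod_cast hsL.le)
  show φ (birkhoffSum h c m q) u ∈ W
  rw [hm', birkhoffSum_add, add_comm, hφ.add]
  exact h4

end

end Run7.h619.AA
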