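import Pool.Agent.Run7.h619.AA.Main
import Pool.Agent.Run7.h619.AA.WS
import Pool.Agent.Run7.h619.AA.Cyc
import Pool.Agent.Run7.h619.AA.DefsC

/-!
# `Ω`-stable skew products over Anosov diffeomorphisms have no cycles
-/

set_option autoImplicit false
set_option linter.unusedSectionVars false

open Filter Set Metric
open scoped Manifold ContDiff Topology

universe u v w

namespace Run7.h619.AA

open Pool.Agent.H718R2.G Pool.Agent.TH80.OMS Run7.h619.LA Run7.h619.SK Pool.Agent.W564.SC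
  Pool.Agent.Y504.CO Run7.h619.AX Pool.Agent.Y929.CO

/-- closed invariant disjoint sets which cover a chain transitive system -/
theorem chain_conn {Y : Type*} [MetricSpace Y] [CompactSpace Y] {h : Y → Y} (hT : TransChain h)
    {A A' : Set Y} (hA : IsClosed A) (hA' : IsClosed A') (hd : Disjoint A A')
    (hcov : ∀ y, y ∈ A ∨ y ∈ A') (hinv : ∀ y ∈ A, h y ∈ A) {a a' : Y} (ha : a ∈ A) (ha' : a' ∈ A') :
    False := by
  obtain ⟨δ, hδ, hsep⟩ : ∃ δ : ℝ, 0 < δ ∧ ∀ y ∈ A, ∀ y' ∈ A', δ ≤ dist y y' := by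
    obtain ⟨δ, hδ, h1⟩ := hA.isCompact.exists_thickening_subset_open hA'.isOpen_compl
      (Set.disjoint_left.1 hd)
    refine ⟨δ, hδ, fun y hy y' hy' => ?_⟩
    by_contra hlt
    push Not at hlt
    have h2 : y' ∈ thickening δ A := by
      rw [mem_thickening_iff]
      exact ⟨y, hy, by rw [dist_comm]; exact hlt⟩
    exact h1 h2 hy'
  obtain ⟨m, w, -, h0, hm, hw⟩ := hT δ hδ a a'
  have key : ∀ i ≤ m, w i ∈ A := by
    intro i
    induction i with
    | zero => intro _; rw [h0]; exact ha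
    | succ i ih =>
      intro hi
      have h1 := ih (by omega)
      rcases hcov (w (i + 1)) with h2 | h2
      · exact h2
      · exfalso
        have h3 := hsep _ (hinv _ h1) _ h2
        have h4 := hw i (by omega)
        linarith
  have h1 := key m le_rfl
  rw [hm] at h1
  exact Set.disjoint_left.1 hd h1 ha'

/-- topological transitivity -/
theorem top_trans {Y : Type*} [MetricSpace Y] {h : Y → Y} (hs : ShadowPer h)
    (hT : TransChain h) {U W : Set Y} (hU : IsOpen U) (hW : IsOpen W) (hUn : U.Nonempty)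
    (hWn : W.Nonempty) : ∃ (m : ℕ), ∃ y ∈ U, h^[m] y ∈ W := by
  obtain ⟨a, ha⟩ := hUn
  obtain ⟨b, hb⟩ := hWn
  obtain ⟨ε, hε, h1⟩ := Metric.isOpen_iff.1 hU a ha
  obtain ⟨ε', hε', h2⟩ := Metric.isOpen_iff.1 hW b hb
  obtain ⟨δ, hδ, hsh⟩ := hs (min ε ε') (lt_min hε hε')
  obtain ⟨m₁, w₁, hm₁, a₁, b₁, c₁⟩ := hT δ hδ a b
  obtain ⟨m₂, w₂, hm₂, a₂, b₂, c₂⟩ := hT δ hδ b a
  obtain ⟨w, hw1, hw2, hw3⟩ := glue (fun p q => dist (h p) q < δ) c₁ c₂ (by rw [b₁, a₂])
  obtain ⟨p, -, hd⟩ := hsh (m₁ + m₂) w (by omega) (by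
    rw [hw2, b₂, hw1 0 (Nat.zero_le _), a₁]) hw3
  have h3 := hd 0 (by omega)
  have h4 := hd m₁ (by omega)
  rw [hw1 0 (Nat.zero_le _), a₁] at h3
  rw [hw1 m₁ le_rfl, b₁] at h4
  exact ⟨m₁, p, h1 (h3.trans_le (min_le_left _ _)), h2 (h4.trans_le (min_le_right _ _))⟩

/-- a dense orbit -/
theorem dense_orb {Y : Type*} [MetricSpace Y] [CompactSpace Y] [Nonempty Y] {h : Y → Y}
    (hc : Continuous h) (hs : ShadowPer h) (hT : TransChain h) :
    ∃ y, Dense (range fun m : ℕ => h^[m] y) := by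
  obtain ⟨b, hbc, -, hb⟩ := TopologicalSpace.exists_countable_basis Y
  obtain ⟨b', hb'⟩ : ∃ b' : Set (Set Y), b' = {s ∈ b | s.Nonempty} := ⟨_, rfl⟩
  have hb'c : b'.Countable := by rw [hb']; exact hbc.mono (sep_subset _ _)
  have hG : Dense (⋂ s ∈ b', ⋃ m : ℕ, (h^[m]) ⁻¹' s) := by
    apply dense_biInter_of_isOpen
    · intro s hs'
      rw [hb'] at hs'
      exact isOpen_iUnion fun m => (hb.isOpen hs'.1).preimage (hc.iterate m)
    · exact hb'c
    · intro s hs'
      rw [hb'] at hs'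
      rw [dense_iff_inter_open]
      intro U hU hUn
      obtain ⟨m, y, hy, hmy⟩ := top_trans hs hT hU (hb.isOpen hs'.1) hUn hs'.2
      exact ⟨y, hy, mem_iUnion.2 ⟨m, hmy⟩⟩
  obtain ⟨y, hy⟩ := hG.nonempty
  refine ⟨y, ?_⟩
  rw [dense_iff_inter_open]
  intro U hU hUn
  obtain ⟨z, hz⟩ := hUn
  obtain ⟨s, hs', hzs, hsU⟩ := hb.exists_subset_of_mem_open hz hU
  have h1 := mem_iInter₂.1 hy s (by rw [hb']; exact ⟨hs', ⟨z, hzs⟩⟩)
  obtain ⟨m, hm⟩ := mem_iUnion.1 h1
  exact ⟨h^[m] y, hsU hm, ⟨m, rfl⟩⟩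

section

variable {d k b n : ℕ} {M : Type v} {B : Type w} {N : Type u} [TopologicalSpace M] [T2Space M]
  [CompactSpace M] [ChartedSpace (V k) M] [IsManifold (𝓡 k) ∞ M] [MetricSpace B] [CompactSpace B]
  [ChartedSpace (V b) B] [IsManifold (𝓡 b) ∞ B] [TopologicalSpace N] [T2Space N] [CompactSpace N]
  [ChartedSpace (V n) N] [IsManifold (𝓡 n) ∞ N]
  {r : ℕ∞} {Θ : PDiff k b n M B N} {φ : V d → M → M} {h : DiffM b B r} {c : B → V d}
  {F : DiffM n N r}

/-- the estimates at a fixed point of the action -/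
theorem fix_est [Nonempty B] (hr : 1 ≤ r) (hF : OmegaStable n N r F) (H : IsActSkew Θ φ h c F)
    (hs : ShadowPer h) (hT : TransChain h) {x : M} (hx : ∀ s, φ s x = x) :
    ∃ Es Eu : Submodule ℝ (V k), Spl (fun s => Dv k k (φ s) x) Es Eu ∧ ∃ C μ : ℝ, 0 < C ∧ 0 < μ ∧
      μ < 1 ∧
      (∀ (y : B) (m : ℕ), ∀ v ∈ Es, ‖Dv k k (φ (birkhoffSum h c m y)) x v‖ ≤ C * μ ^ m * ‖v‖) ∧
      ∀ (y : B) (m : ℕ), ∀ v ∈ Eu, ‖Dv k k (φ (-birkhoffSum h c m y)) x v‖ ≤ C * μ ^ m * ‖v‖ :=
  coc_est (grpP (k := k) H.act hx) (h := h.toHomeomorph) hs hT H.contc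
    (fun a ha v hv => hyp_dir hr hF H hx ha v hv)

/-- forward asymptotics do not depend on the base point -/
theorem fwd_indep [Nonempty B] (hr : 1 ≤ r) (hF : OmegaStable n N r F) (H : IsActSkew Θ φ h c F)
    (hs : ShadowPer h) (hT : TransChain h) {x : M} (hx : ∀ s, φ s x = x) {u : M} {y : B}
    (hlim : Tendsto (fun m => φ (birkhoffSum h c m y) u) atTop (𝓝 x)) (q : B) :
    Tendsto (fun m => φ (birkhoffSum h c m q) u) atTop (𝓝 x) := by
  obtain ⟨Es, Eu, hsp, C, μ, hC, hμ0, hμ1, h1, h2⟩ := fix_est hr hF H hs hT hx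
  exact stable_indep H.act hx h.continuous H.contc hsp hμ0 hμ1 h1 h2 hlim q

/-- backward asymptotics do not depend on the base point -/
theorem bwd_indep [Nonempty B] (hr : 1 ≤ r) (hF : OmegaStable n N r F) (H : IsActSkew Θ φ h c F)
    (hs : ShadowPer h) (hT : TransChain h) {x : M} (hx : ∀ s, φ s x = x) {u : M} {y : B}
    (hlim : Tendsto (fun m => φ (-birkhoffSum h c m (h.symm^[m] y)) u) atTop (𝓝 x)) (q : B) :
    Tendsto (fun m => φ (-birkhoffSum h c m (h.symm^[m] q)) u) atTop (𝓝 x) := by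
  obtain ⟨Es, Eu, hsp, C, μ, hC, hμ0, hμ1, h1, h2⟩ := fix_est hr hF H hs hT hx
  have hb : ∀ (m : ℕ) (y : B), birkhoffSum h.symm (fun y => -c (h.symm y)) m y =
      -birkhoffSum h c m (h.symm^[m] y) := fun m y =>
    birk_inv (h := h) (h' := h.symm) h.apply_symm_apply c m y
  have h3 := stable_indep (h := h.symm) (c := fun y => -c (h.symm y)) H.act hx h.symm.continuous
    (H.contc.comp h.symm.continuous).neg hsp.swap hμ0 hμ1 (C := C) (by
      intro y m v hv
      rw [hb]
      exact h2 _ m v hv) (by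
      intro y m v hv
      rw [hb, neg_neg]
      exact h1 _ m v hv) (u := u) (y := y) (by
      simp only [hb]
      exact hlim) q
  simp only [hb] at h3
  exact h3

/-- the full orbit of a point -/
noncomputable def fullOrb (F : DiffM n N r) (z : N) (j : ℤ) : N :=
  if 0 ≤ j then F^[j.toNat] z else F.symm^[(-j).toNat] z

theorem fullOrb_step (F : DiffM n N r) (z : N) (j : ℤ) :
    F (fullOrb F z j) = fullOrb F z (j + 1) := by
  unfold fullOrb
  rcases lt_or_ge j 0 with hj | hj
  · rw [if_neg (by omega)]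
    obtain ⟨m, hm⟩ : ∃ m : ℕ, (-j).toNat = m + 1 := ⟨(-j).toNat - 1, by omega⟩
    rw [hm, Function.iterate_succ_apply']
    have h1 : F (F.symm (F.symm^[m] z)) = F.symm^[m] z := F.apply_symm_apply _
    rw [h1]
    by_cases hj1 : 0 ≤ j + 1
    · rw [if_pos hj1]
      have e1 : m = 0 := by omega
      have e2 : (j + 1).toNat = 0 := by omega
      rw [e1, e2]
      rfl
    · rw [if_neg hj1]
      have e1 : (-(j + 1)).toNat = m := by omega
      rw [e1]
  · rw [if_pos hj, if_pos (by omega), ← Function.iterate_succ_apply' F]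
    congr 2
    omega

/-- a neighbourhood of the orbit over a finite set -/
theorem tube {Θ : PDiff k b n M B N} {O : Set N} (hO : IsOpen O) {x : M} {Q : Set B}
    (hQ : Q.Finite) (h : ∀ y ∈ Q, Θ (x, y) ∈ O) : ∀ᶠ x' in 𝓝 x, ∀ y ∈ Q, Θ (x', y) ∈ O := by
  rw [Filter.eventually_all_finite hQ]
  intro y hy
  have hc : Continuous fun x' : M => Θ (x', y) := Θ.continuous.comp (by fun_prop)
  exact (hc.tendsto x).eventually (hO.mem_nhds (h y hy))

/-- asymptotics of the fibre coordinate -/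
theorem pr1_lim {G : N → N} {P : Set N} {x : M} (hP : ∀ z ∈ P, pr1 Θ z = x)
    (hinv : ∀ z ∈ P, G z ∈ P) {z : N} (hz : z ∈ WS G P) :
    Tendsto (fun m => pr1 Θ (G^[m] z)) atTop (𝓝 x) := by
  obtain ⟨p, hp, hO⟩ := hz
  rw [tendsto_def]
  intro W hW
  obtain ⟨W', hW', hWo, hxW⟩ := _root_.mem_nhds_iff.1 hW
  have hc : Continuous (pr1 Θ) := (pr1_smooth Θ).continuous
  have h1 := hO {q | pr1 Θ q.1 ≠ x ∨ pr1 Θ q.2 ∈ W'} (by
    apply IsOpen.union
    · exact isOpen_compl_singleton.preimage (hc.comp continuous_fst)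
    · exact hWo.preimage (hc.comp continuous_snd)) (by
    intro z
    by_cases h2 : pr1 Θ z = x
    · right
      show pr1 Θ z ∈ W'
      rw [h2]
      exact hxW
    · left
      exact h2)
  filter_upwards [h1] with m hm
  have hpm : G^[m] p ∈ P := by
    clear hm
    induction m with
    | zero => exact hp
    | succ m ih => rw [Function.iterate_succ_apply']; exact hinv _ ih
  rcases hm with h2 | h2
  · exact absurd (hP _ hpm) h2
  · exact hW' h2

theorem pr1_iter (H : IsActSkew Θ φ h c F) (m : ℕ) (z : N) :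
    pr1 Θ (F^[m] z) = φ (birkhoffSum h c m (pr2 Θ z)) (pr1 Θ z) := by
  conv_lhs => rw [← pr_eta Θ z]
  rw [H.iter, pr1_apply]

theorem pr1_iter_symm (H : IsActSkew Θ φ h c F) (m : ℕ) (z : N) :
    pr1 Θ (F.symm^[m] z) = φ (-birkhoffSum h c m (h.symm^[m] (pr2 Θ z))) (pr1 Θ z) := by
  conv_lhs => rw [← pr_eta Θ z]
  rw [H.iter_symm, pr1_apply]

/-- there are no cycles of fixed points of the action -/
theorem no_fix_cycle [Infinite B] (hr : 1 ≤ r) (hF : OmegaStable n N r F)
    (H : IsActSkew Θ φ h c F) (hh : Anosov h) (hs : ShadowPer h) (hT : TransChain h) {K : ℕ}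
    (x u : ℕ → M) (hx : ∀ i ≤ K, ∀ s, φ s (x i) = x i)
    (hK : 1 ≤ K) (hne : ∀ i ≤ K, ∀ j ≤ K, x i = x j → i = j) (y : ℕ → B)
    (hb : ∀ i ≤ K, Tendsto (fun m => φ (-birkhoffSum h c m (h.symm^[m] (y i))) (u i)) atTop
      (𝓝 (x i)))
    (hf : ∀ i ≤ K, Tendsto (fun m => φ (birkhoffSum h c m (y i)) (u i)) atTop
      (𝓝 (x (nx K i)))) : False := by
  obtain ⟨hax, hfin, hOm⟩ := axA_of_stable hr hF H hh hs hT
  obtain ⟨y0⟩ : Nonempty B := inferInstance
  have hs' : PerShadow h.toHomeomorph := hs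
  have hT' : ChainTrans h.toHomeomorph := hT
  obtain ⟨q, m₀, hm₀, hq, -⟩ := dense_per hs' hT' y0 1 one_pos
  have hq' : h^[m₀] q = q := hq
  have hqs : h.symm^[m₀] q = q := by
    have h1 : h.symm^[m₀] (h^[m₀] q) = q :=
      (Function.LeftInverse.iterate (g := h.symm) (f := h) h.symm_apply_apply m₀) q
    rwa [hq'] at h1
  have hnxne : ∀ i ≤ K, x (nx K i) ≠ x i := by
    intro i hi heq
    have h1 := hne _ nx_le i hi heq
    unfold nx at h1
    split_ifs at h1 with h2
    · omega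
    · omega
  -- the orbit of the base point
  obtain ⟨Q, hQd⟩ : ∃ Q : Set B, Q = range (fun l : ℕ => h^[l] q) := ⟨_, rfl⟩
  have hQf : Q.Finite := by
    have h1 := Pool.Agent.Y929.CO.orb_finite (f := h) (p := q) ⟨m₀, hm₀, hq'⟩
    rw [hQd]
    exact h1
  have hQm : ∀ m : ℕ, h^[m] q ∈ Q := fun m => by rw [hQd]; exact ⟨m, rfl⟩
  have hQs : ∀ m : ℕ, h.symm^[m] q ∈ Q := by
    intro m
    have h1 : h.symm^[m] q = h^[m * m₀ - m] q := by
      have h2 : h.symm^[m * m₀] q = q := by
        clear hqs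
        have h3 : h.symm^[m₀] q = q := by
          have h1 : h.symm^[m₀] (h^[m₀] q) = q :=
            (Function.LeftInverse.iterate (g := h.symm) (f := h) h.symm_apply_apply m₀) q
          rwa [hq'] at h1
        have h4 : ∀ j : ℕ, h.symm^[j * m₀] q = q := by
          intro j
          induction j with
          | zero => simp
          | succ j ih => rw [add_mul, one_mul, Function.iterate_add_apply, h3, ih]
        exact h4 m
      have h5 : m ≤ m * m₀ := Nat.le_mul_of_pos_right m (by omega)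
      have h6 : h^[m * m₀ - m] (h.symm^[m * m₀ - m] (h.symm^[m] q)) = h.symm^[m] q :=
        (Function.LeftInverse.iterate (g := h) (f := h.symm) h.apply_symm_apply _) _
      rw [← Function.iterate_add_apply, Nat.sub_add_cancel h5, h2] at h6
      exact h6.symm
    rw [h1]
    exact hQm _
  have hb' : ∀ i ≤ K, Tendsto (fun m => φ (-birkhoffSum h c m (h.symm^[m] q)) (u i)) atTop
      (𝓝 (x i)) := fun i hi => bwd_indep hr hF H hs hT (hx i hi) (hb i hi) q
  have hf' : ∀ i ≤ K, Tendsto (fun m => φ (birkhoffSum h c m q) (u i)) atTop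
      (𝓝 (x (nx K i))) := fun i hi => fwd_indep hr hF H hs hT (hx _ nx_le) (hf i hi) q
  have hune : ∀ i ≤ K, ¬ ∀ s, φ s (u i) = u i := by
    intro i hi hfix
    have h1 := hb' i hi
    have h2 := hf' i hi
    simp only [hfix] at h1 h2
    have h3 := tendsto_nhds_unique h1 tendsto_const_nhds
    have h4 := tendsto_nhds_unique h2 tendsto_const_nhds
    exact hnxne i hi (h4.trans h3.symm)
  have horbx : ∀ (i : ℕ), i ≤ K → ∀ z ∈ orb F (Θ (x i, q)), ∃ l : ℕ, z = Θ (x i, h^[l] q) := by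
    rintro i hi z ⟨l, rfl⟩
    refine ⟨l, ?_⟩
    show F^[l] (Θ (x i, q)) = _
    rw [H.iter, hx i hi]
  have hinj : Function.Injective Θ := Θ.injective
  have D : Dat F K (fun i => Θ (x i, q)) (fun i => fullOrb F (Θ (u i, q))) := by
    refine ⟨?_, ?_, ?_, ?_, ?_, ?_⟩
    · intro i hi
      refine ⟨m₀, hm₀, ?_⟩
      show F^[m₀] (Θ (x i, q)) = Θ (x i, q)
      rw [H.iter, hx i hi, hq']
    · intro i hi j hj hij
      rw [Set.disjoint_left]
      intro z hz hz'
      obtain ⟨l, hl⟩ := horbx i hi z hz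
      obtain ⟨l', hl'⟩ := horbx j hj z hz'
      rw [hl] at hl'
      exact hij (hne i hi j hj (congrArg Prod.fst (hinj hl')))
    · intro i _ j
      exact fullOrb_step F _ j
    · intro i hi O hO hpO
      have h1 : ∀ y ∈ Q, Θ (x i, y) ∈ O := by
        intro y hy
        rw [hQd] at hy
        obtain ⟨l, rfl⟩ := hy
        apply hpO
        refine ⟨l, ?_⟩
        show F^[l] (Θ (x i, q)) = _
        rw [H.iter, hx i hi]
      obtain ⟨A, hA⟩ := eventually_atTop.1 ((hb' i hi).eventually (tube hO hQf h1))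
      rw [eventually_atBot]
      refine ⟨-(A : ℤ) - 1, fun j hj => ?_⟩
      show fullOrb F (Θ (u i, q)) j ∈ O
      unfold fullOrb
      rw [if_neg (by omega), H.iter_symm]
      exact hA _ (by omega) _ (hQs _)
    · intro i hi O hO hpO
      have h1 : ∀ y ∈ Q, Θ (x (nx K i), y) ∈ O := by
        intro y hy
        rw [hQd] at hy
        obtain ⟨l, rfl⟩ := hy
        apply hpO
        refine ⟨l, ?_⟩
        show F^[l] (Θ (x (nx K i), q)) = _
        rw [H.iter, hx _ nx_le]
      obtain ⟨A, hA⟩ := eventually_atTop.1 ((hf' i hi).eventually (tube hO hQf h1))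
      rw [eventually_atTop]
      refine ⟨(A : ℤ), fun j hj => ?_⟩
      show fullOrb F (Θ (u i, q)) j ∈ O
      unfold fullOrb
      rw [if_pos (by omega), H.iter]
      exact hA _ (by omega) _ (hQm _)
    · intro i hi hmem
      obtain ⟨l, hl⟩ := horbx i hi _ hmem
      have h1 : fullOrb F (Θ (u i, q)) 0 = Θ (u i, q) := by
        unfold fullOrb
        rw [if_pos le_rfl]
        rfl
      rw [h1] at hl
      have h2 : u i = x i := congrArg Prod.fst (hinj hl)
      apply hune i hi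
      rw [h2]
      exact hx i hi
  obtain ⟨i, hi, hcl⟩ := stable_cyc hr hF D
  have h1 : fullOrb F (Θ (u i, q)) 0 = Θ (u i, q) := by
    unfold fullOrb
    rw [if_pos le_rfl]
    rfl
  rw [h1] at hcl
  have hsub : closure (Per F) ⊆ Omega F := by
    apply closure_minimal
    · rintro z ⟨m, hm, hmz⟩ W hW hzW
      exact ⟨m, hm, z, hzW, by rw [hmz]; exact hzW⟩
    · exact hax.1.1
  exact hune i hi ((hOm _ _).1 (hsub hcl))

/-- **`F` lies in `U_3`.** -/
theorem u3_of_stable [Infinite B] (hr : 1 ≤ r) (hF : OmegaStable n N r F)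
    (H : IsActSkew Θ φ h c F) (hh : Anosov h) (hs : ShadowPer h) (hT : TransChain h) : U3 F := by
  obtain ⟨hax, hfin, hOm⟩ := axA_of_stable hr hF H hh hs hT
  have hinj : Function.Injective Θ := Θ.injective
  have hpc : Continuous (pr1 Θ) := (pr1_smooth Θ).continuous
  have hmemO : ∀ z, z ∈ Omega F ↔ ∀ s, φ s (pr1 Θ z) = pr1 Θ z := by
    intro z
    conv_lhs => rw [← pr_eta Θ z]
    exact hOm _ _
  refine ⟨hax, ?_, ?_⟩
  · -- the decomposition
    obtain ⟨y0, hy0⟩ := dense_orb h.continuous hs hT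
    obtain ⟨l, e, -⟩ : ∃ (l : ℕ) (e : Fin l ≃ {x | ∀ s, φ s x = x}), True := by
      have := hfin.to_subtype
      exact ⟨_, (Finite.equivFin _).symm, trivial⟩
    have hefix : ∀ i, ∀ s, φ s (e i : M) = e i := fun i => (e i).2
    refine ⟨l, fun i => {z | pr1 Θ z = e i}, ?_, ?_, ?_, ?_, ?_⟩
    · intro i
      exact isClosed_singleton.preimage hpc
    · intro i
      apply Subset.antisymm
      · rintro _ ⟨z, hz, rfl⟩
        show pr1 Θ (F z) = e i
        have h1 := pr1_iter H 1 z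
        have hz' : pr1 Θ z = e i := hz
        rw [hz', hefix] at h1
        exact h1
      · intro z hz
        refine ⟨F.symm z, ?_, F.apply_symm_apply z⟩
        show pr1 Θ (F.symm z) = e i
        have h1 := pr1_iter_symm H 1 z
        have hz' : pr1 Θ z = e i := hz
        rw [hz', hefix] at h1
        exact h1
    · intro i j hij
      rw [Set.disjoint_left]
      intro z hz hz'
      have h1 : pr1 Θ z = e i := hz
      have h2 : pr1 Θ z = e j := hz'
      exact hij (e.injective (Subtype.ext (h1.symm.trans h2)))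
    · ext z
      rw [mem_iUnion, hmemO]
      constructor
      · rintro ⟨i, hi⟩
        have h1 : pr1 Θ z = e i := hi
        rw [h1]
        exact hefix i
      · intro hz
        refine ⟨e.symm ⟨pr1 Θ z, hz⟩, ?_⟩
        show pr1 Θ z = e (e.symm ⟨pr1 Θ z, hz⟩)
        rw [e.apply_symm_apply]
    · intro i
      refine ⟨Θ (e i, y0), pr1_apply Θ _, ?_⟩
      intro z hz
      have hz' : pr1 Θ z = e i := hz
      rw [← pr_eta Θ z, hz', _root_.mem_closure_iff]
      intro O hO hzO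
      have hc : Continuous fun y' : B => Θ ((e i : M), y') := Θ.continuous.comp (by fun_prop)
      obtain ⟨y', hy', ⟨m, hm⟩⟩ := hy0.inter_open_nonempty _ (hO.preimage hc) ⟨pr2 Θ z, hzO⟩
      refine ⟨F^[m] (Θ (e i, y0)), ?_, ⟨m, rfl⟩⟩
      rw [H.iter, hefix]
      have hm' : h^[m] y0 = y' := hm
      rw [hm']
      exact hy'
  · intro l P hP K s hK hsinj hcyc
    -- the fixed points of the pieces
    have hsub : ∀ i, P i ⊆ Omega F := fun i => by
      rw [← hP.union]
      exact subset_iUnion P i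
    have hex : ∀ i, ∃ x : M, (∀ t, φ t x = x) ∧ (∀ z ∈ P i, pr1 Θ z = x) ∧ (P i).Nonempty := by
      intro i
      obtain ⟨ζ, hζ, hd⟩ := hP.dense i
      have hfix := (hmemO ζ).1 (hsub i hζ)
      refine ⟨pr1 Θ ζ, hfix, fun z hz => ?_, ⟨ζ, hζ⟩⟩
      have h1 : closure (range fun m : ℕ => F^[m] ζ) ⊆ {z | pr1 Θ z = pr1 Θ ζ} := by
        apply closure_minimal _ (isClosed_singleton.preimage hpc)
        rintro _ ⟨m, rfl⟩
        show pr1 Θ (F^[m] ζ) = pr1 Θ ζ
        rw [pr1_iter H, hfix]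
      exact h1 (hd hz)
    choose x hxfix hxP hPne using hex
    have hPF : ∀ i, ∀ z ∈ P i, F z ∈ P i := by
      intro i z hz
      rw [← hP.inv i]
      exact ⟨z, hz, rfl⟩
    have hPF' : ∀ i, ∀ z ∈ P i, F.symm z ∈ P i := by
      intro i z hz
      rw [← hP.inv i] at hz
      obtain ⟨z', hz', rfl⟩ := hz
      rw [F.symm_apply_apply]
      exact hz'
    -- different pieces lie over different fixed points
    have hxne : ∀ i j, x i = x j → i = j := by
      intro i j hij
      by_contra hne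
      have hcont : Continuous fun y : B => Θ (x i, y) := Θ.continuous.comp (by fun_prop)
      obtain ⟨A', hA'⟩ : ∃ A' : Set N, A' = ⋃ l ∈ {l | l ≠ i}, P l := ⟨_, rfl⟩
      have hA'c : IsClosed A' := by
        rw [hA']
        exact (Set.toFinite _).isClosed_biUnion fun l _ => hP.closed l
      obtain ⟨z, hz⟩ := hPne i
      obtain ⟨z', hz'⟩ := hPne j
      refine chain_conn hT (A := (fun y : B => Θ (x i, y)) ⁻¹' P i)
        (A' := (fun y : B => Θ (x i, y)) ⁻¹' A') ((hP.closed i).preimage hcont)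
        (hA'c.preimage hcont) ?_ ?_ ?_ (a := pr2 Θ z) (a' := pr2 Θ z') ?_ ?_
      · rw [Set.disjoint_left]
        intro y hy hy'
        have h1 : Θ (x i, y) ∈ A' := hy'
        rw [hA', mem_iUnion₂] at h1
        obtain ⟨l, hl, h2⟩ := h1
        exact Set.disjoint_left.1 (hP.disj i l (fun h => hl h.symm)) hy h2
      · intro y
        have h1 : Θ (x i, y) ∈ Omega F := (hOm _ _).2 (hxfix i)
        rw [← hP.union, mem_iUnion] at h1
        obtain ⟨l, hl⟩ := h1
        by_cases hli : l = i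
        · left
          rw [hli] at hl
          exact hl
        · right
          show Θ (x i, y) ∈ A'
          rw [hA']
          exact mem_biUnion (show l ∈ {l | l ≠ i} from hli) hl
      · intro y hy
        have h1 := hPF i _ hy
        have h2 : F (Θ (x i, y)) = Θ (x i, h y) := by
          have h3 := H.map' (x i) y
          rw [hxfix i] at h3
          exact h3
        rw [h2] at h1
        exact h1
      · show Θ (x i, pr2 Θ z) ∈ P i
        rw [← hxP i z hz, pr_eta]
        exact hz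
      · show Θ (x i, pr2 Θ z') ∈ A'
        rw [hij, ← hxP j z' hz', pr_eta, hA']
        exact mem_biUnion (show j ∈ {l | l ≠ i} from fun h => hne h.symm) hz'
    -- the connecting points
    have hz : ∀ i, ∃ z : N, i ≤ K → z ∈ WS F.symm (P (s i)) ∧ z ∈ WS F (P (s (nx K i))) := by
      intro i
      by_cases hi : i ≤ K
      · unfold nx
        split_ifs with h1
        · obtain ⟨z, hz⟩ := hcyc.1 i h1
          exact ⟨z, fun _ => ⟨hz.1, hz.2⟩⟩
        · have e : i = K := by omega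
          obtain ⟨z, hz⟩ := hcyc.2
          rw [e]
          exact ⟨z, fun _ => ⟨hz.1, hz.2⟩⟩
      · obtain ⟨z, -⟩ := hPne (s 0)
        exact ⟨z, fun h => absurd h hi⟩
    choose z hz using hz
    refine no_fix_cycle hr hF H hh hs hT (K := K) (fun i => x (s i)) (fun i => pr1 Θ (z i))
      (fun i _ => hxfix _) hK (fun i hi j hj hij => hsinj i hi j hj (hxne _ _ hij))
      (fun i => pr2 Θ (z i)) ?_ ?_
    · intro i hi
      have h1 := pr1_lim (Θ := Θ) (hxP (s i)) (hPF' (s i)) (hz i hi).1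
      refine h1.congr fun m => ?_
      exact pr1_iter_symm H m (z i)
    · intro i hi
      have h1 := pr1_lim (Θ := Θ) (hxP (s (nx K i))) (hPF (s (nx K i))) (hz i hi).2
      refine h1.congr fun m => ?_
      exact pr1_iter H m (z i)

end

end Run7.h619.AA
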