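import Pool.Agent.TH80.OMS.SymDefs

/-!
# Hyperbolic sets, Axiom A, skew products over diffeomorphisms: definitions

Tangent vectors at `x ∈ N` are elements of `V n = ℝⁿ` (in Mathlib `TangentSpace (𝓡 n) x = V n`); the
topology of the tangent bundle is the one of `TangentBundle (𝓡 n) N`.
-/

set_option autoImplicit false

open scoped Manifold ContDiff Topology

namespace Run7.h619.AA

open Pool.Agent.H718R2.G Pool.Agent.TH80.OMS

section

variable {n : ℕ} {N : Type*} [TopologicalSpace N] [ChartedSpace (V n) N]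

/-- the derivative of `f : N → N` at `x` -/
noncomputable def dv (n : ℕ) {N : Type*} [TopologicalSpace N] [ChartedSpace (V n) N] (f : N → N)
    (x : N) : V n →L[ℝ] V n := mfderiv (𝓡 n) (𝓡 n) f x

/-- over the set `K` the family `E` of subspaces of the tangent spaces is a closed subset of the tangent
bundle -/
def IsClosedSub (K : Set N) (E : N → Submodule ℝ (V n)) [IsManifold (𝓡 n) ∞ N] : Prop :=
  IsClosed {p : TangentBundle (𝓡 n) N | p.1 ∈ K ∧ p.2 ∈ E p.1}

/-- the function `q` is continuous on the tangent bundle -/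
def IsContTan (q : N → V n → ℝ) [IsManifold (𝓡 n) ∞ N] : Prop :=
  Continuous fun p : TangentBundle (𝓡 n) N => q p.1 p.2

/-- `q` is a continuous function on the tangent bundle of `N` which is a norm on each tangent space (for
instance the norm of a Riemannian metric). -/
structure IsNormOn (q : N → V n → ℝ) [IsManifold (𝓡 n) ∞ N] : Prop where
  cont : IsContTan q
  add_le : ∀ x v w, q x (v + w) ≤ q x v + q x w
  smul : ∀ x (a : ℝ) v, q x (a • v) = |a| * q x v
  pos : ∀ x v, v ≠ 0 → 0 < q x v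

/-- `‖Df^m v‖ ≤ C μ^m ‖v‖` for all `v` in `E` over `K` and all `m ≥ 0` -/
def Contr (f : N → N) (K : Set N) (E : N → Submodule ℝ (V n)) (q : N → V n → ℝ) (C μ : ℝ) : Prop :=
  ∀ x ∈ K, ∀ v ∈ E x, ∀ m : ℕ, q (f^[m] x) (dv n f^[m] x v) ≤ C * μ ^ m * q x v

/-- Over the set `K` the tangent bundle of `N` is the direct sum of the subbundles `Es` and `Eu`, which
are invariant under the derivative of `F` and continuous. (For two complementary families of subspaces
over a closed set `K` continuity means that both are closed subsets of the tangent bundle.) -/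
structure IsSplitting [IsManifold (𝓡 n) ∞ N] (F : N → N) (K : Set N)
    (Es Eu : N → Submodule ℝ (V n)) : Prop where
  compl : ∀ x ∈ K, IsCompl (Es x) (Eu x)
  inv_s : ∀ x ∈ K, ∀ v, v ∈ Es x ↔ dv n F x v ∈ Es (F x)
  inv_u : ∀ x ∈ K, ∀ v, v ∈ Eu x ↔ dv n F x v ∈ Eu (F x)
  closed_s : IsClosedSub K Es
  closed_u : IsClosedSub K Eu

variable [IsManifold (𝓡 n) ∞ N] {r : ℕ∞}

/-- The set `K` is hyperbolic for the diffeomorphism `F`: it is closed, `F(K) = K`, and there are a
continuous splitting `T_K N = Es ⊕ Eu` invariant under `DF`, a continuous norm on the tangent bundle and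
constants `C > 0`, `0 < μ < 1` such that `‖DF^m v‖ ≤ C μ^m ‖v‖` for `v` in `Es`, and
`‖DF^(-m) v‖ ≤ C μ^m ‖v‖` for `v` in `Eu`, for all `m ≥ 0`. -/
def IsHyperbolic (F : DiffM n N r) (K : Set N) : Prop :=
  IsClosed K ∧ F '' K = K ∧ ∃ (q : N → V n → ℝ) (Es Eu : N → Submodule ℝ (V n)) (C μ : ℝ),
    IsNormOn q ∧ IsSplitting F K Es Eu ∧ 0 < C ∧ 0 < μ ∧ μ < 1 ∧ Contr F K Es q C μ ∧
    Contr F.symm K Eu q C μ

/-- Axiom A: the nonwandering set is hyperbolic, and the periodic points are dense in it. -/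
def AxA (F : DiffM n N r) : Prop := IsHyperbolic F (Omega F) ∧ Omega F ⊆ closure (Per F)

/-- `F` is an Anosov diffeomorphism: the whole manifold is hyperbolic. -/
def Anosov (F : DiffM n N r) : Prop := IsHyperbolic F Set.univ

end

/-- `φ` is a `C^∞` action of `ℝ^d` on `M` -/
structure IsAction (d k : ℕ) (M : Type*) [TopologicalSpace M] [ChartedSpace (V k) M]
    (φ : V d → M → M) : Prop where
  smooth : ContMDiff ((𝓡 d).prod (𝓡 k)) (𝓡 k) ∞ (fun q : V d × M => φ q.1 q.2)
  zero : ∀ y, φ 0 y = y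
  add : ∀ s t y, φ (s + t) y = φ s (φ t y)

/-- periodic shadowing property: closed pseudo-orbits are shadowed by periodic orbits -/
def ShadowPer {Y : Type*} [MetricSpace Y] (h : Y → Y) : Prop :=
  ∀ η : ℝ, 0 < η → ∃ δ : ℝ, 0 < δ ∧ ∀ (m : ℕ) (w : ℕ → Y), 1 ≤ m → w m = w 0 →
    (∀ i < m, dist (h (w i)) (w (i + 1)) < δ) →
    ∃ p : Y, h^[m] p = p ∧ ∀ i < m, dist (h^[i] p) (w i) < η

/-- chain transitivity -/
def TransChain {Y : Type*} [MetricSpace Y] (h : Y → Y) : Prop :=
  ∀ δ : ℝ, 0 < δ → ∀ p q : Y, ∃ (m : ℕ) (w : ℕ → Y), 1 ≤ m ∧ w 0 = p ∧ w m = q ∧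
    ∀ i < m, dist (h (w i)) (w (i + 1)) < δ

/-- Diffeomorphisms from `M × B` to `N`. -/
abbrev PDiff (k b n : ℕ) (M B N : Type*) [TopologicalSpace M] [ChartedSpace (V k) M]
    [TopologicalSpace B] [ChartedSpace (V b) B] [TopologicalSpace N] [ChartedSpace (V n) N] :=
  Diffeomorph ((𝓡 k).prod (𝓡 b)) (𝓡 n) (M × B) N ∞

variable {k b n : ℕ} {M B N : Type*} [TopologicalSpace M]
  [ChartedSpace (V k) M] [TopologicalSpace B] [ChartedSpace (V b) B] [TopologicalSpace N]
  [ChartedSpace (V n) N]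

/-- the point `Θ(x, y)` -/
noncomputable def PDiff.pt (Θ : PDiff k b n M B N) (x : M) (y : B) : N := Θ (x, y)

/-- `F` is, in the coordinates `Θ : M × B → N`, the skew product `(x, y) ↦ (φ_(c(y))(x), h(y))`, with a
`C^∞` action `φ` of `ℝ^d` on `M`, a diffeomorphism `h` of `B` and a continuous function `c`. -/
structure IsActSkew {d : ℕ} {r : ℕ∞} (Θ : PDiff k b n M B N) (φ : V d → M → M) (h : DiffM b B r)
    (c : B → V d) (F : DiffM n N r) : Prop where
  action : IsAction d k M φ
  contc : Continuous c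
  map : ∀ x y, F (Θ.pt x y) = Θ.pt (φ (c y) x) (h y)

end Run7.h619.AA
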