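import Pool.Agent.Run7.h619.AX.OneP
import Pool.Agent.Run7.h619.OM.Avg

/-!
# Continuous linear actions without bounded orbits in the directions of a convex set
-/

set_option autoImplicit false
set_option linter.unusedSectionVars false

open Filter Set Metric
open scoped Topology

namespace Run7.h619.LA

variable {E : Type*} [NormedAddCommGroup E] [NormedSpace ℝ E] {W : Type*} [NormedAddCommGroup W]
  [NormedSpace ℝ W]

/-- a continuous linear action of the group `W` -/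
structure IsGrp (P : W → E →L[ℝ] E) : Prop where
  zero : ∀ v, P 0 v = v
  add : ∀ s t v, P (s + t) v = P s (P t v)
  cont : Continuous P

theorem IsGrp.growth [ProperSpace W] {P : W → E →L[ℝ] E} (H : IsGrp P) :
    ∃ K ω : ℝ, 1 ≤ K ∧ 0 ≤ ω ∧ ∀ s v, ‖P s v‖ ≤ K * Real.exp (ω * ‖s‖) * ‖v‖ := by
  obtain ⟨K0, hK0⟩ := (isCompact_closedBall (0 : W) 1).exists_bound_of_continuousOn
    H.cont.continuousOn
  obtain ⟨K, hKd⟩ : ∃ K, K = max 1 K0 := ⟨_, rfl⟩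
  have hK1 : 1 ≤ K := by rw [hKd]; exact le_max_left _ _
  have hK : ∀ s : W, ‖s‖ ≤ 1 → ∀ v, ‖P s v‖ ≤ K * ‖v‖ := by
    intro s hs v
    refine ((P s).le_opNorm v).trans (mul_le_mul_of_nonneg_right ?_ (norm_nonneg _))
    rw [hKd]
    exact (hK0 s (by rw [mem_closedBall, dist_zero_right]; exact hs)).trans (le_max_right _ _)
  have hpow : ∀ (j : ℕ) (s : W), ‖s‖ ≤ j → ∀ v, ‖P s v‖ ≤ K ^ j * ‖v‖ := by
    intro j
    induction j with
    | zero =>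
      intro s hs v
      have h0 : s = 0 := by
        rw [Nat.cast_zero] at hs
        exact norm_le_zero_iff.1 hs
      rw [h0, H.zero, pow_zero, one_mul]
    | succ j ih =>
      intro s hs v
      have hj : (0 : ℝ) < (j : ℝ) + 1 := by positivity
      rw [Nat.cast_succ] at hs
      have e : s = ((j : ℝ) + 1)⁻¹ • s + ((j : ℝ) / (j + 1)) • s := by
        rw [← add_smul]
        have : ((j : ℝ) + 1)⁻¹ + (j : ℝ) / (j + 1) = 1 := by field_simp; ring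
        rw [this, one_smul]
      have n1 : ‖((j : ℝ) + 1)⁻¹ • s‖ ≤ 1 := by
        rw [norm_smul, norm_inv, Real.norm_of_nonneg hj.le, inv_mul_le_iff₀ hj, mul_one]
        exact hs
      have n2 : ‖((j : ℝ) / (j + 1)) • s‖ ≤ j := by
        rw [norm_smul, Real.norm_of_nonneg (by positivity), div_mul_eq_mul_div, div_le_iff₀ hj]
        exact mul_le_mul_of_nonneg_left hs (Nat.cast_nonneg j)
      rw [e, H.add, pow_succ]
      calc ‖P (((j : ℝ) + 1)⁻¹ • s) (P (((j : ℝ) / (j + 1)) • s) v)‖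
          ≤ K * ‖P (((j : ℝ) / (j + 1)) • s) v‖ := hK _ n1 _
        _ ≤ K * (K ^ j * ‖v‖) := mul_le_mul_of_nonneg_left (ih _ n2 v) (by linarith)
        _ = K ^ j * K * ‖v‖ := by ring
  refine ⟨K, Real.log K, hK1, Real.log_nonneg hK1, fun s v => ?_⟩
  obtain ⟨j, hj⟩ : ∃ j : ℕ, j = ⌈‖s‖⌉₊ := ⟨_, rfl⟩
  have h1 : ‖s‖ ≤ j := by rw [hj]; exact Nat.le_ceil _
  have h2 : (j : ℝ) < ‖s‖ + 1 := by rw [hj]; exact Nat.ceil_lt_add_one (norm_nonneg _)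
  refine (hpow j s h1 v).trans (mul_le_mul_of_nonneg_right ?_ (norm_nonneg _))
  have hK0' : 0 < K := by linarith
  have h3 : K ^ j = Real.exp (Real.log K * j) := by
    rw [mul_comm, Real.exp_nat_mul, Real.exp_log hK0']
  have h4 : K * Real.exp (Real.log K * ‖s‖) = Real.exp (Real.log K * (‖s‖ + 1)) := by
    rw [mul_add, mul_one, Real.exp_add, Real.exp_log hK0', mul_comm]
  rw [h3, h4]
  exact Real.exp_le_exp.2 (mul_le_mul_of_nonneg_left h2.le (Real.log_nonneg hK1))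

/-- an invariant splitting -/
structure Spl (P : W → E →L[ℝ] E) (Es Eu : Submodule ℝ E) : Prop where
  compl : IsCompl Es Eu
  inv_s : ∀ s, ∀ v ∈ Es, P s v ∈ Es
  inv_u : ∀ s, ∀ v ∈ Eu, P s v ∈ Eu

theorem Spl.swap {P : W → E →L[ℝ] E} {Es Eu : Submodule ℝ E} (h : Spl P Es Eu) : Spl P Eu Es :=
  ⟨h.compl.symm, h.inv_u, h.inv_s⟩

/-- exponential estimates in the direction `b` -/
def Est (P : W → E →L[ℝ] E) (Es Eu : Submodule ℝ E) (C μ : ℝ) (b : W) : Prop :=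
  (∀ v ∈ Es, ∀ i : ℕ, ‖P ((i : ℝ) • b) v‖ ≤ C * μ ^ i * ‖v‖) ∧
    ∀ v ∈ Eu, ∀ i : ℕ, ‖P (-((i : ℝ) • b)) v‖ ≤ C * μ ^ i * ‖v‖

theorem Est.swap {P : W → E →L[ℝ] E} {Es Eu : Submodule ℝ E} {C μ : ℝ} {b : W}
    (h : Est P Es Eu C μ b) : Est P Eu Es C μ (-b) := by
  refine ⟨fun v hv i => ?_, fun v hv i => ?_⟩
  · rw [smul_neg]
    exact h.2 v hv i
  · rw [smul_neg, neg_neg]
    exact h.1 v hv i

theorem Est.mono {P : W → E →L[ℝ] E} {Es Eu : Submodule ℝ E} {C μ C' μ' : ℝ} {b : W}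
    (h : Est P Es Eu C μ b) (hC : 0 < C) (hμ : 0 < μ) (hCC : C ≤ C') (hμμ : μ ≤ μ') :
    Est P Es Eu C' μ' b := by
  have key : ∀ i : ℕ, ∀ v : E, C * μ ^ i * ‖v‖ ≤ C' * μ' ^ i * ‖v‖ := by
    intro i v
    apply mul_le_mul_of_nonneg_right _ (norm_nonneg _)
    exact mul_le_mul hCC (pow_le_pow_left₀ hμ.le hμμ i) (by positivity) (by linarith)
  exact ⟨fun v hv i => (h.1 v hv i).trans (key i v), fun v hv i => (h.2 v hv i).trans (key i v)⟩

theorem Est.near [ProperSpace W] {P : W → E →L[ℝ] E} (H : IsGrp P) {Es Eu : Submodule ℝ E}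
    {C μ : ℝ} {b : W} (hC : 0 < C) (hμ0 : 0 < μ) (hμ1 : μ < 1) (h : Est P Es Eu C μ b) :
    ∃ δ C' μ' : ℝ, 0 < δ ∧ 0 < C' ∧ 0 < μ' ∧ μ' < 1 ∧ ∀ b', ‖b' - b‖ < δ → Est P Es Eu C' μ' b' := by
  obtain ⟨K, ω, hK, hω, hg⟩ := H.growth
  obtain ⟨μ', hμ'⟩ : ∃ μ' : ℝ, μ' = (1 + μ) / 2 := ⟨_, rfl⟩
  have h1 : μ < μ' := by rw [hμ']; linarith
  have h2 : μ' < 1 := by rw [hμ']; linarith
  have h0 : 0 < μ' := hμ0.trans h1
  have hq : 1 < μ' / μ := (one_lt_div hμ0).2 h1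
  have hlog : 0 < Real.log (μ' / μ) := Real.log_pos hq
  obtain ⟨δ, hδ⟩ : ∃ δ : ℝ, δ = Real.log (μ' / μ) / (ω + 1) := ⟨_, rfl⟩
  have hδ0 : 0 < δ := by rw [hδ]; exact div_pos hlog (by linarith)
  have hωδ : ω * δ ≤ Real.log (μ' / μ) := by
    rw [hδ, mul_div_assoc', div_le_iff₀ (by linarith), mul_comm]
    exact mul_le_mul_of_nonneg_left (by linarith) hlog.le
  have hexp : ∀ i : ℕ, Real.exp (ω * (i * δ)) * μ ^ i ≤ μ' ^ i := by
    intro i
    have h3 : Real.exp (ω * (i * δ)) ≤ (μ' / μ) ^ i := by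
      have h4 : (μ' / μ) ^ i = Real.exp (i * Real.log (μ' / μ)) := by
        rw [Real.exp_nat_mul, Real.exp_log (by linarith)]
      rw [h4]
      apply Real.exp_le_exp.2
      have h5 : ω * (i * δ) = i * (ω * δ) := by ring
      rw [h5]
      exact mul_le_mul_of_nonneg_left hωδ (Nat.cast_nonneg i)
    calc Real.exp (ω * (i * δ)) * μ ^ i ≤ (μ' / μ) ^ i * μ ^ i :=
          mul_le_mul_of_nonneg_right h3 (by positivity)
      _ = μ' ^ i := by rw [← mul_pow, div_mul_cancel₀ _ hμ0.ne']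
  have key : ∀ (i : ℕ) (e u v : _), ‖e‖ ≤ i * δ → ‖u‖ ≤ C * μ ^ i * ‖v‖ →
      ‖P e u‖ ≤ K * C * μ' ^ i * ‖(v : E)‖ := by
    intro i e u v he hu
    refine (hg e u).trans ?_
    have h3 : Real.exp (ω * ‖e‖) ≤ Real.exp (ω * (i * δ)) :=
      Real.exp_le_exp.2 (mul_le_mul_of_nonneg_left he hω)
    calc K * Real.exp (ω * ‖e‖) * ‖u‖
        ≤ K * Real.exp (ω * (i * δ)) * (C * μ ^ i * ‖v‖) := by
          apply mul_le_mul _ hu (norm_nonneg _) (by positivity)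
          exact mul_le_mul_of_nonneg_left h3 (by linarith)
      _ = K * C * (Real.exp (ω * (i * δ)) * μ ^ i) * ‖v‖ := by ring
      _ ≤ K * C * μ' ^ i * ‖v‖ := by
          apply mul_le_mul_of_nonneg_right _ (norm_nonneg _)
          exact mul_le_mul_of_nonneg_left (hexp i) (by positivity)
  refine ⟨δ, K * C, μ', hδ0, by positivity, h0, h2, fun b' hb' => ⟨fun v hv i => ?_,
    fun v hv i => ?_⟩⟩
  · have e : ((i : ℝ) • b') = (i : ℝ) • (b' - b) + (i : ℝ) • b := by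
      rw [← smul_add, sub_add_cancel]
    rw [e, H.add]
    refine key i _ _ v ?_ (h.1 v hv i)
    rw [norm_smul, Real.norm_of_nonneg (Nat.cast_nonneg i)]
    exact mul_le_mul_of_nonneg_left hb'.le (Nat.cast_nonneg i)
  · have e : -((i : ℝ) • b') = -((i : ℝ) • (b' - b)) + -((i : ℝ) • b) := by
      rw [← neg_add, ← smul_add, sub_add_cancel]
    rw [e, H.add]
    refine key i _ _ v ?_ (h.2 v hv i)
    rw [norm_neg, norm_smul, Real.norm_of_nonneg (Nat.cast_nonneg i)]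
    exact mul_le_mul_of_nonneg_left hb'.le (Nat.cast_nonneg i)

theorem IsGrp.cancel {P : W → E →L[ℝ] E} (H : IsGrp P) (s : W) (v : E) : P (-s) (P s v) = v := by
  rw [← H.add, neg_add_cancel, H.zero]

theorem Est.mem_s {P : W → E →L[ℝ] E} (H : IsGrp P) {Es Eu : Submodule ℝ E} {C μ : ℝ} {b : W}
    (hC : 0 < C) (hμ0 : 0 < μ) (hμ1 : μ < 1) (hS : Spl P Es Eu) (h : Est P Es Eu C μ b) (v : E)
    (hv : ∃ D : ℝ, ∀ i : ℕ, ‖P ((i : ℝ) • b) v‖ ≤ D) : v ∈ Es := by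
  obtain ⟨D, hD⟩ := hv
  have htop : v ∈ Es ⊔ Eu := by rw [hS.compl.sup_eq_top]; trivial
  obtain ⟨vs, hvs, vu, hvu, hsum⟩ := Submodule.mem_sup.1 htop
  have key : ∀ i : ℕ, ‖vu‖ ≤ C * μ ^ i * (D + C * ‖vs‖) := by
    intro i
    have h1 := h.2 _ (hS.inv_u ((i : ℝ) • b) vu hvu) i
    rw [H.cancel] at h1
    refine h1.trans (mul_le_mul_of_nonneg_left ?_ (by positivity))
    have h2 : vu = v - vs := by rw [← hsum]; abel
    rw [h2, map_sub]
    refine (norm_sub_le _ _).trans (add_le_add (hD i) ?_)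
    refine (h.1 vs hvs i).trans ?_
    have h3 : μ ^ i ≤ 1 := pow_le_one₀ hμ0.le hμ1.le
    have h4 : C * μ ^ i ≤ C * 1 := mul_le_mul_of_nonneg_left h3 hC.le
    rw [mul_one] at h4
    exact mul_le_mul_of_nonneg_right h4 (norm_nonneg _)
  have hlim : Tendsto (fun i : ℕ => C * μ ^ i * (D + C * ‖vs‖)) atTop (𝓝 0) := by
    have h1 := tendsto_pow_atTop_nhds_zero_of_lt_one hμ0.le hμ1
    have h2 := (h1.const_mul C).mul_const (D + C * ‖vs‖)
    rw [mul_zero, zero_mul] at h2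
    exact h2
  have h0 : ‖vu‖ ≤ 0 := ge_of_tendsto' hlim key
  rw [norm_le_zero_iff.1 h0, add_zero] at hsum
  rw [← hsum]
  exact hvs

theorem Est.le_s {P : W → E →L[ℝ] E} (H : IsGrp P) {Es Eu Es' Eu' : Submodule ℝ E}
    {C μ C' μ' : ℝ} {b : W} (hC : 0 < C) (hμ0 : 0 < μ) (hμ1 : μ < 1) (hS : Spl P Es Eu)
    (h : Est P Es Eu C μ b) (hC' : 0 < C') (hμ0' : 0 < μ') (hμ1' : μ' < 1)
    (h' : Est P Es' Eu' C' μ' b) : Es' ≤ Es := by
  intro v hv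
  refine h.mem_s H hC hμ0 hμ1 hS v ⟨C' * ‖v‖, fun i => (h'.1 v hv i).trans ?_⟩
  have h3 : μ' ^ i ≤ 1 := pow_le_one₀ hμ0'.le hμ1'.le
  have h4 : C' * μ' ^ i ≤ C' * 1 := mul_le_mul_of_nonneg_left h3 hC'.le
  rw [mul_one] at h4
  exact mul_le_mul_of_nonneg_right h4 (norm_nonneg _)

theorem Est.uniq {P : W → E →L[ℝ] E} (H : IsGrp P) {Es Eu Es' Eu' : Submodule ℝ E}
    {C μ C' μ' : ℝ} {b : W} (hC : 0 < C) (hμ0 : 0 < μ) (hμ1 : μ < 1) (hS : Spl P Es Eu)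
    (h : Est P Es Eu C μ b) (hC' : 0 < C') (hμ0' : 0 < μ') (hμ1' : μ' < 1) (hS' : Spl P Es' Eu')
    (h' : Est P Es' Eu' C' μ' b) : Es' = Es ∧ Eu' = Eu :=
  ⟨le_antisymm (h.le_s H hC hμ0 hμ1 hS hC' hμ0' hμ1' h')
    (h'.le_s H hC' hμ0' hμ1' hS' hC hμ0 hμ1 h),
  le_antisymm (h.swap.le_s H hC hμ0 hμ1 hS.swap hC' hμ0' hμ1' h'.swap)
    (h'.swap.le_s H hC' hμ0' hμ1' hS'.swap hC hμ0 hμ1 h.swap)⟩

section

variable [FiniteDimensional ℝ E]

/-- the splitting of a single direction -/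
theorem exists_spl {P : W → E →L[ℝ] E} (H : IsGrp P) (b : W)
    (hyp : ∀ v, (∃ C : ℝ, ∀ i : ℤ, ‖P ((i : ℝ) • b) v‖ ≤ C) → v = 0) :
    ∃ Es Eu : Submodule ℝ E, Spl P Es Eu ∧ ∃ C μ : ℝ, 0 < C ∧ 0 < μ ∧ μ < 1 ∧
      Est P Es Eu C μ b := by
  obtain ⟨A, hA, hA'⟩ : ∃ A : E ≃L[ℝ] E, (∀ v, A v = P b v) ∧ ∀ v, A⁻¹ v = P (-b) v :=
    ⟨ContinuousLinearEquiv.equivOfInverse (P b) (P (-b))
      (fun v => by rw [← H.add, neg_add_cancel, H.zero])
      (fun v => by rw [← H.add, add_neg_cancel, H.zero]), fun v => rfl, fun v => rfl⟩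
  have hAi : ∀ (i : ℤ) (v : E), (A ^ i) v = P ((i : ℝ) • b) v := by
    intro i v
    induction i using Int.induction_on with
    | zero => rw [z0, Int.cast_zero, zero_smul, H.zero]
    | succ i ih =>
      rw [zsucc, ih, hA, ← H.add]
      congr 2
      push_cast
      rw [add_smul, one_smul]
      abel
    | pred i ih =>
      have e : (-(i : ℤ) - 1) = -1 + -(i : ℤ) := by ring
      rw [e, zadd, ih, zpow_neg_one, hA', ← H.add]
      congr 2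
      push_cast
      rw [add_smul, neg_smul, neg_smul, one_smul]
  have hcomm : ∀ s t v, P s (P t v) = P t (P s v) := fun s t v => by
    rw [← H.add, ← H.add, add_comm]
  have hinv : ∀ (J : Set ℤ) (t : W), ∀ v ∈ Sub A J, P t v ∈ Sub A J := by
    rintro J t v ⟨C, hC⟩
    refine ⟨‖P t‖ * C, fun i hi => ?_⟩
    rw [hAi, hcomm, ← hAi]
    exact ((P t).le_opNorm _).trans (mul_le_mul_of_nonneg_left (hC i hi) (norm_nonneg _))
  have hyp' : ∀ v, Bd A univ v → v = 0 := by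
    rintro v ⟨C, hC⟩
    exact hyp v ⟨C, fun i => by rw [← hAi]; exact hC i (mem_univ i)⟩
  have hinvA : ∀ (i : ℤ) (v : E), (A⁻¹ ^ i) v = (A ^ (-i)) v := fun i v => by rw [inv_zpow']
  obtain ⟨C1, μ1, hC1, hμ1, hμ1', h1⟩ := contr A (Sub A {i | 0 ≤ i}) (fun v hv => by
    rw [hA]
    exact hinv _ _ v hv) (fun v hv => hv) hyp'
  obtain ⟨C2, μ2, hC2, hμ2, hμ2', h2⟩ := contr A⁻¹ (Sub A {i | i ≤ 0}) (fun v hv => by
    rw [hA']
    exact hinv _ _ v hv) (by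
    rintro v ⟨C, hC⟩
    refine ⟨C, fun i hi => ?_⟩
    rw [hinvA]
    have : (0 : ℤ) ≤ i := hi
    exact hC _ (show -i ≤ 0 by omega)) (by
    rintro v ⟨C, hC⟩
    apply hyp' v
    refine ⟨C, fun i _ => ?_⟩
    have h3 := hC (-i) (mem_univ _)
    rw [hinvA, neg_neg] at h3
    exact h3)
  refine ⟨_, _, ⟨LA.split A hyp', hinv _, hinv _⟩, max C1 C2, max μ1 μ2, lt_max_of_lt_left hC1,
    lt_max_of_lt_left hμ1, max_lt hμ1' hμ2', ?_, ?_⟩
  · intro v hv i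
    have h4 := h1 v hv i
    rw [hAi, Int.cast_natCast] at h4
    refine h4.trans (mul_le_mul_of_nonneg_right ?_ (norm_nonneg _))
    exact mul_le_mul (le_max_left _ _) (pow_le_pow_left₀ hμ1.le (le_max_left _ _) i) (by positivity)
      (le_max_of_le_left hC1.le)
  · intro v hv i
    have h4 := h2 v hv i
    rw [hinvA, hAi] at h4
    push_cast at h4
    rw [neg_smul] at h4
    refine h4.trans (mul_le_mul_of_nonneg_right ?_ (norm_nonneg _))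
    exact mul_le_mul (le_max_right _ _) (pow_le_pow_left₀ hμ2.le (le_max_right _ _) i)
      (by positivity) (le_max_of_le_left hC1.le)

/-- **Splitting over a compact convex set of directions.** -/
theorem split_on [ProperSpace W] {P : W → E →L[ℝ] E} (H : IsGrp P) {K : Set W} (hKc : IsCompact K)
    (hKx : Convex ℝ K) (hKne : K.Nonempty)
    (hyp : ∀ b ∈ K, ∀ v, (∃ C : ℝ, ∀ i : ℤ, ‖P ((i : ℝ) • b) v‖ ≤ C) → v = 0) :
    ∃ Es Eu : Submodule ℝ E, Spl P Es Eu ∧ ∃ C μ : ℝ, 0 < C ∧ 0 < μ ∧ μ < 1 ∧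
      ∀ b ∈ K, Est P Es Eu C μ b := by
  obtain ⟨b0, hb0⟩ := hKne
  obtain ⟨Es, Eu, hS, C0, μ0, hC0, hμ0, hμ0', h0⟩ := exists_spl H b0 (hyp b0 hb0)
  refine ⟨Es, Eu, hS, ?_⟩
  -- all directions
  obtain ⟨G, hG⟩ : ∃ G : Set K,
    G = {b : K | ∃ C μ : ℝ, 0 < C ∧ 0 < μ ∧ μ < 1 ∧ Est P Es Eu C μ b} :=
    ⟨_, rfl⟩
  have hmem : ∀ b : K, b ∈ G ↔ ∃ C μ : ℝ, 0 < C ∧ 0 < μ ∧ μ < 1 ∧ Est P Es Eu C μ b := by
    intro b
    rw [hG]
    rfl
  have hopen : IsOpen G := by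
    rw [Metric.isOpen_iff]
    intro b hb
    obtain ⟨C, μ, hC, hμ, hμ', h1⟩ := (hmem b).1 hb
    obtain ⟨δ, C', μ'', hδ, hC', hμ'', hμ''', h2⟩ := h1.near H hC hμ hμ'
    refine ⟨δ, hδ, fun b' hb' => (hmem b').2 ⟨C', μ'', hC', hμ'', hμ''', h2 _ ?_⟩⟩
    rw [← dist_eq_norm]
    exact hb'
  have hclosed : IsClosed G := by
    rw [← isOpen_compl_iff, Metric.isOpen_iff]
    intro b hb
    obtain ⟨Es', Eu', hS', C, μ, hC, hμ, hμ', h1⟩ := exists_spl H (b : W) (hyp b b.2)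
    obtain ⟨δ, C', μ'', hδ, hC', hμ'', hμ''', h2⟩ := h1.near H hC hμ hμ'
    refine ⟨δ, hδ, fun b' hb' hb'G => hb ?_⟩
    obtain ⟨C3, μ3, hC3, hμ3, hμ3', h3⟩ := (hmem b').1 hb'G
    have h4 := h2 b' (by rw [← dist_eq_norm]; exact hb')
    obtain ⟨e1, e2⟩ := h3.uniq H hC3 hμ3 hμ3' hS hC' hμ'' hμ''' hS' h4
    rw [e1, e2] at h1
    exact (hmem b).2 ⟨C, μ, hC, hμ, hμ', h1⟩
  have : PreconnectedSpace K := isPreconnected_iff_preconnectedSpace.1 hKx.isPreconnected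
  have huniv : G = univ := IsClopen.eq_univ ⟨hclosed, hopen⟩
    ⟨⟨b0, hb0⟩, (hmem _).2 ⟨C0, μ0, hC0, hμ0, hμ0', h0⟩⟩
  refine hKc.induction_on (p := fun S => ∃ C μ : ℝ, 0 < C ∧ 0 < μ ∧ μ < 1 ∧
    ∀ b ∈ S, Est P Es Eu C μ b) ?_ ?_ ?_ ?_
  · exact ⟨1, 1 / 2, one_pos, by norm_num, by norm_num, fun b hb => hb.elim⟩
  · rintro S T hST ⟨C, μ, hC, hμ, hμ', h1⟩
    exact ⟨C, μ, hC, hμ, hμ', fun b hb => h1 b (hST hb)⟩
  · rintro S T ⟨C, μ, hC, hμ, hμ', h1⟩ ⟨C2, μ2, hC2, hμ2, hμ2', h2⟩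
    refine ⟨max C C2, max μ μ2, lt_max_of_lt_left hC, lt_max_of_lt_left hμ, max_lt hμ' hμ2', ?_⟩
    rintro b (hb | hb)
    · exact (h1 b hb).mono hC hμ (le_max_left _ _) (le_max_left _ _)
    · exact (h2 b hb).mono hC2 hμ2 (le_max_right _ _) (le_max_right _ _)
  · intro b hb
    have hbG : (⟨b, hb⟩ : K) ∈ G := by rw [huniv]; trivial
    obtain ⟨C, μ, hC, hμ, hμ', h1⟩ := (hmem _).1 hbG
    obtain ⟨δ, C', μ'', hδ, hC', hμ'', hμ''', h2⟩ := h1.near H hC hμ hμ'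
    refine ⟨ball b δ, mem_nhdsWithin_of_mem_nhds (ball_mem_nhds b hδ), C', μ'', hC', hμ'', hμ''',
      fun b' hb' => h2 b' ?_⟩
    rw [← dist_eq_norm]
    exact hb'

end

end Run7.h619.LA

namespace Run7.h619.LA

open Run7.h619.SK Pool.Agent.W564.SC

variable {E : Type*} [NormedAddCommGroup E] [NormedSpace ℝ E] [FiniteDimensional ℝ E]
  {W : Type*} [NormedAddCommGroup W] [NormedSpace ℝ W] [ProperSpace W]
  {Y : Type*} [MetricSpace Y] [CompactSpace Y] [Nonempty Y]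

theorem avgs_compact {h : Y → Y} {c : Y → W} (hc : Continuous c) : IsCompact (closure (avgs h c)) := by
  obtain ⟨B, hB0, hB⟩ := exists_bound hc
  refine (isCompact_closedBall (0 : W) B).of_isClosed_subset isClosed_closure ?_
  apply closure_minimal _ isClosed_closedBall
  rintro a ⟨y, m, hm, -, rfl⟩
  have hm0 : (0 : ℝ) < m := by exact_mod_cast hm
  rw [mem_closedBall, dist_zero_right, norm_smul, norm_inv, Real.norm_of_nonneg hm0.le,
    inv_mul_le_iff₀ hm0]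
  unfold birkhoffSum
  refine (norm_sum_le _ _).trans ?_
  refine (Finset.sum_le_sum fun i _ => hB _).trans ?_
  rw [Finset.sum_const, Finset.card_range, nsmul_eq_mul]

/-- **Estimates along the Birkhoff sums.** -/
theorem coc_est {P : W → E →L[ℝ] E} (H : IsGrp P) {h : Y ≃ₜ Y} {c : Y → W}
    (hs : PerShadow h) (hT : ChainTrans h) (hc : Continuous c)
    (hyp : ∀ b ∈ closure (avgs h c), ∀ v, (∃ C : ℝ, ∀ i : ℤ, ‖P ((i : ℝ) • b) v‖ ≤ C) → v = 0) :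
    ∃ Es Eu : Submodule ℝ E, Spl P Es Eu ∧ ∃ C μ : ℝ, 0 < C ∧ 0 < μ ∧ μ < 1 ∧
      (∀ (y : Y) (m : ℕ), ∀ v ∈ Es, ‖P (birkhoffSum h c m y) v‖ ≤ C * μ ^ m * ‖v‖) ∧
      ∀ (y : Y) (m : ℕ), ∀ v ∈ Eu, ‖P (-birkhoffSum h c m y) v‖ ≤ C * μ ^ m * ‖v‖ := by
  obtain ⟨y0⟩ : Nonempty Y := inferInstance
  have hne : (closure (avgs h c)).Nonempty := by
    obtain ⟨q, b, hb, hq, -⟩ := dense_per hs hT y0 1 one_pos
    exact ⟨_, subset_closure ⟨q, b, hb, hq, rfl⟩⟩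
  obtain ⟨Es, Eu, hS, C, μ, hC, hμ0, hμ1, hE⟩ := split_on H (avgs_compact hc)
    (avgs_convex hs hT hc) hne hyp
  refine ⟨Es, Eu, hS, ?_⟩
  obtain ⟨K, ω, hK, hω, hg⟩ := H.growth
  obtain ⟨μ', hμ'⟩ : ∃ μ' : ℝ, μ' = (1 + μ) / 2 := ⟨_, rfl⟩
  have h1 : μ < μ' := by rw [hμ']; linarith
  have h2 : μ' < 1 := by rw [hμ']; linarith
  have h0 : 0 < μ' := hμ0.trans h1
  have hlog : 0 < Real.log (μ' / μ) := Real.log_pos ((one_lt_div hμ0).2 h1)
  obtain ⟨ε, hε⟩ : ∃ ε : ℝ, ε = Real.log (μ' / μ) / (ω + 1) := ⟨_, rfl⟩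
  have hε0 : 0 < ε := by rw [hε]; exact div_pos hlog (by linarith)
  have hωε : ω * ε ≤ Real.log (μ' / μ) := by
    rw [hε, mul_div_assoc', div_le_iff₀ (by linarith), mul_comm]
    exact mul_le_mul_of_nonneg_left (by linarith) hlog.le
  obtain ⟨L, D, hD, H2⟩ := avg_close (h := h) (c := c) h.continuous hs hT hc ε hε0
  have hexp : ∀ i : ℕ, Real.exp (ω * (ε * i + D)) * μ ^ i ≤ Real.exp (ω * D) * μ' ^ i := by
    intro i
    have h3 : Real.exp (ω * (ε * i + D)) ≤ Real.exp (ω * D) * (μ' / μ) ^ i := by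
      have h4 : (μ' / μ) ^ i = Real.exp (i * Real.log (μ' / μ)) := by
        rw [Real.exp_nat_mul, Real.exp_log (by positivity)]
      rw [h4, ← Real.exp_add]
      apply Real.exp_le_exp.2
      have h5 := mul_le_mul_of_nonneg_left hωε (Nat.cast_nonneg (α := ℝ) i)
      linarith
    calc Real.exp (ω * (ε * i + D)) * μ ^ i ≤ Real.exp (ω * D) * (μ' / μ) ^ i * μ ^ i :=
          mul_le_mul_of_nonneg_right h3 (by positivity)
      _ = Real.exp (ω * D) * μ' ^ i := by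
          rw [mul_assoc, ← mul_pow, div_mul_cancel₀ _ hμ0.ne']
  have key : ∀ (m m' : ℕ) (e : W) (u v : E), m ≤ m' → ‖e‖ ≤ ε * m + D → ‖u‖ ≤ C * μ ^ m' * ‖v‖ →
      ‖P e u‖ ≤ K * C * Real.exp (ω * D) * μ' ^ m * ‖v‖ := by
    intro m m' e u v hm he hu
    refine (hg e u).trans ?_
    have h3 : Real.exp (ω * ‖e‖) ≤ Real.exp (ω * (ε * m + D)) :=
      Real.exp_le_exp.2 (mul_le_mul_of_nonneg_left he hω)
    have h4 : ‖u‖ ≤ C * μ ^ m * ‖v‖ := by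
      refine hu.trans (mul_le_mul_of_nonneg_right ?_ (norm_nonneg _))
      exact mul_le_mul_of_nonneg_left (pow_le_pow_of_le_one hμ0.le hμ1.le hm) hC.le
    calc K * Real.exp (ω * ‖e‖) * ‖u‖
        ≤ K * Real.exp (ω * (ε * m + D)) * (C * μ ^ m * ‖v‖) := by
          apply mul_le_mul _ h4 (norm_nonneg _) (by positivity)
          exact mul_le_mul_of_nonneg_left h3 (by linarith)
      _ = K * C * (Real.exp (ω * (ε * m + D)) * μ ^ m) * ‖v‖ := by ring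
      _ ≤ K * C * (Real.exp (ω * D) * μ' ^ m) * ‖v‖ := by
          apply mul_le_mul_of_nonneg_right _ (norm_nonneg _)
          exact mul_le_mul_of_nonneg_left (hexp m) (by positivity)
      _ = K * C * Real.exp (ω * D) * μ' ^ m * ‖v‖ := by ring
  have hdec : ∀ (y : Y) (m : ℕ), ∃ (m' : ℕ) (e a : W), m ≤ m' ∧ ‖e‖ ≤ ε * m + D ∧
      a ∈ closure (avgs h c) ∧ birkhoffSum h c m y = e + (m' : ℝ) • a := by
    intro y m
    obtain ⟨y', m', hm1, -, hm', hy', hd⟩ := H2 y m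
    have hm0 : (0 : ℝ) < m' := by exact_mod_cast hm'
    refine ⟨m', birkhoffSum h c m y - birkhoffSum h c m' y', _, hm1, hd,
      subset_closure ⟨y', m', hm', hy', rfl⟩, ?_⟩
    rw [smul_smul, mul_inv_cancel₀ hm0.ne', one_smul, sub_add_cancel]
  refine ⟨K * C * Real.exp (ω * D), μ', by positivity, h0, h2, fun y m v hv => ?_,
    fun y m v hv => ?_⟩
  · obtain ⟨m', e, a, hm, he, ha, hsum⟩ := hdec y m
    rw [hsum, H.add]
    exact key m m' e _ v hm he ((hE a ha).1 v hv m')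
  · obtain ⟨m', e, a, hm, he, ha, hsum⟩ := hdec y m
    rw [hsum, neg_add, H.add]
    exact key m m' (-e) _ v hm (by rw [norm_neg]; exact he) ((hE a ha).2 v hv m')

end Run7.h619.LA
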