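import Pool.Agent.Run7.h619.AX.Hyp
import Pool.Agent.Run7.h619.AA.Defs
import Pool.Agent.Run7.h619.AA.Grp
import Pool.Agent.Run7.h619.SK.Defs

/-!
# Equivalent definitions; the derivatives of an action at a fixed point
-/

set_option autoImplicit false
set_option linter.unusedSectionVars false

open Filter Set Metric
open scoped Manifold ContDiff Topology

namespace Run7.h619.AA

open Pool.Agent.H718R2.G Pool.Agent.TH80.OMS Run7.h619.SK Run7.h619.AX Run7.h619.LA

section

variable {n : ℕ} {N : Type*} [TopologicalSpace N] [ChartedSpace (V n) N] [IsManifold (𝓡 n) ∞ N]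
  {r : ℕ∞}

theorem normOn_iff {q : N → V n → ℝ} :
    IsNormOn q ↔ IsTanNorm n N (fun p : TangentBundle (𝓡 n) N => q p.1 p.2) :=
  ⟨fun h => ⟨h.cont, h.add_le, h.smul, h.pos⟩, fun h => ⟨h.cont, h.add_le, h.smul, h.pos⟩⟩

theorem map_iff (hr : 1 ≤ r) (F : DiffM n N r) (E : N → Submodule ℝ (V n)) (x : N) :
    (∀ v, v ∈ E x ↔ dv n F x v ∈ E (F x)) ↔
      (E x).map (Dv n n F x).toLinearMap = E (F x) := by
  have hr' : (1 : WithTop ℕ∞) ≤ (r : WithTop ℕ∞) := by exact_mod_cast hr
  have hF : ContMDiff (𝓡 n) (𝓡 n) 1 F := F.contMDiff.of_le hr'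
  have hF' : ContMDiff (𝓡 n) (𝓡 n) 1 F.symm := F.symm.contMDiff.of_le hr'
  have hinv : ∀ x, F.symm (F x) = x := F.symm_apply_apply
  have hinv' : ∀ x, F (F.symm x) = x := F.apply_symm_apply
  constructor
  · intro h
    apply le_antisymm
    · rintro _ ⟨v, hv, rfl⟩
      exact (h v).1 hv
    · intro w hw
      have h4 := Dv_inv hF' hF hinv' (F x) w
      rw [hinv] at h4
      refine ⟨Dv n n F.symm (F x) w, (h _).2 ?_, h4⟩
      have h5 : dv n F x (Dv n n F.symm (F x) w) = w := h4
      rw [h5]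
      exact hw
  · intro h v
    constructor
    · intro hv
      rw [← h]
      exact ⟨v, hv, rfl⟩
    · intro hv
      rw [← h] at hv
      obtain ⟨w, hw, hwv⟩ := hv
      have h1 : Dv n n F x w = Dv n n F x v := hwv
      have h2 := Dv_inv hF hF' hinv x w
      rw [h1, Dv_inv hF hF' hinv x v] at h2
      rw [h2]
      exact hw

theorem hyperbolic_iff (hr : 1 ≤ r) (F : DiffM n N r) (K : Set N) :
    IsHyperbolic F K ↔ Hyperbolic F K := by
  constructor
  · rintro ⟨h1, h2, q, Es, Eu, C, μ, h3, h4, h5, h6, h7, h8, h9⟩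
    exact ⟨h1, h2, _, Es, Eu, C, μ, normOn_iff.1 h3, ⟨h4.compl,
      fun x hx => (map_iff hr F Es x).1 (h4.inv_s x hx),
      fun x hx => (map_iff hr F Eu x).1 (h4.inv_u x hx), h4.closed_s, h4.closed_u⟩, h5, h6, h7, h8,
      h9⟩
  · rintro ⟨h1, h2, q, Es, Eu, C, μ, h3, h4, h5, h6, h7, h8, h9⟩
    exact ⟨h1, h2, fun x v => q ⟨x, v⟩, Es, Eu, C, μ, normOn_iff.2 h3, ⟨h4.compl,
      fun x hx => (map_iff hr F Es x).2 (h4.map_s x hx),
      fun x hx => (map_iff hr F Eu x).2 (h4.map_u x hx), h4.closed_s, h4.closed_u⟩, h5, h6, h7, h8,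
      h9⟩

theorem axA_iff (hr : 1 ≤ r) (F : DiffM n N r) : AxA F ↔ AxiomA F := by
  unfold AxA AxiomA
  rw [hyperbolic_iff hr]

end

theorem IsActSkew.act {d k b n : ℕ} {M B N : Type*} [TopologicalSpace M]
    [ChartedSpace (V k) M] [TopologicalSpace B] [ChartedSpace (V b) B] [TopologicalSpace N]
    [ChartedSpace (V n) N] {r : ℕ∞} {Θ : PDiff k b n M B N} {φ : V d → M → M} {h : DiffM b B r}
    {c : B → V d} {F : DiffM n N r} (H : IsActSkew Θ φ h c F) : IsAct d k M ⊤ φ :=
  ⟨H.action.smooth, H.action.zero, H.action.add⟩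

/-- the derivatives of an action at a fixed point -/
theorem grpP {d k : ℕ} {M : Type*} [TopologicalSpace M] [ChartedSpace (V k) M]
    [IsManifold (𝓡 k) ∞ M] {φ : V d → M → M} (hφ : IsAct d k M ⊤ φ) {x : M}
    (hx : ∀ t, φ t x = x) : IsGrp (fun t => Dv k k (φ t) x) where
  zero := fun v => by
    have : φ 0 = id := funext hφ.zero
    rw [this, Dv_id]
    rfl
  add := fun s t v => by
    have hd : ∀ t, MDifferentiable (𝓡 k) (𝓡 k) (φ t) := fun t =>
      (hφ.smooth.comp (contMDiff_const.prodMk contMDiff_id)).mdifferentiable (by simp)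
    have e : φ (s + t) = φ s ∘ φ t := funext fun y => hφ.add s t y
    rw [e, Dv_comp x (hd s _) (hd t _), hx]
    rfl
  cont := by
    rw [continuous_iff_continuousAt]
    intro t0
    have h1 : ContMDiffAt ((𝓡 d).prod (𝓡 k)) (𝓡 k) 1 (Function.uncurry φ) (t0, x) :=
      (hφ.smooth.contMDiffAt).of_le (by exact_mod_cast le_top)
    have h2 := ContMDiffAt.mfderiv (m := 0) φ (fun _ => x) h1 contMDiffAt_const (by simp)
    have h3 := h2.continuousAt
    refine h3.congr ?_
    filter_upwards with t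
    rw [inTangentCoordinates_eq]
    · ext v : 1
      simp only [hx]
      show (tangentBundleCore (𝓡 k) M).coordChange (achart (V k) x) (achart (V k) x) x
        (mfderiv (𝓡 k) (𝓡 k) (φ t) x ((tangentBundleCore (𝓡 k) M).coordChange (achart (V k) x)
          (achart (V k) x) x v)) = _
      rw [(tangentBundleCore (𝓡 k) M).coordChange_self, (tangentBundleCore (𝓡 k) M).coordChange_self]
      · rfl
      · exact mem_chart_source _ _
      · exact mem_chart_source _ _
    · exact mem_chart_source _ _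
    · rw [hx, hx]
      exact mem_chart_source _ _

end Run7.h619.AA
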