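import Pool.Agent.Run7.h619.AX.Prod
import Pool.Agent.Run7.h619.AA.Conv

/-!
# Hyperbolicity of the set of the points over the fixed points of the action
-/

set_option autoImplicit false
set_option linter.unusedSectionVars false

open Filter Set Metric
open scoped Manifold ContDiff Topology

namespace Run7.h619.AA

open Pool.Agent.H718R2.G Pool.Agent.TH80.OMS Run7.h619.LA Run7.h619.SK Run7.h619.AX
  Pool.Agent.W564.SC

section

variable {d k b n : ℕ} {M B N : Type*} [TopologicalSpace M] [ChartedSpace (V k) M]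
  [TopologicalSpace B] [ChartedSpace (V b) B] [TopologicalSpace N] [ChartedSpace (V n) N] {r : ℕ∞}
  {Θ : PDiff k b n M B N} {φ : V d → M → M} {h : DiffM b B r} {c : B → V d} {F : DiffM n N r}

theorem IsActSkew.map' (H : IsActSkew Θ φ h c F) (x : M) (y : B) :
    F (Θ (x, y)) = Θ (φ (c y) x, h y) := H.map x y

theorem IsActSkew.iter (H : IsActSkew Θ φ h c F) (m : ℕ) (x : M) (y : B) :
    F^[m] (Θ (x, y)) = Θ (φ (birkhoffSum h c m y) x, h^[m] y) := by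
  induction m with
  | zero =>
    rw [birkhoffSum_zero, H.act.zero]
    rfl
  | succ m ih =>
    rw [Function.iterate_succ_apply', ih, H.map', ← H.act.add, Function.iterate_succ_apply',
      birkhoffSum_succ, add_comm]

theorem IsActSkew.iter_symm (H : IsActSkew Θ φ h c F) (m : ℕ) (x : M) (y : B) :
    F.symm^[m] (Θ (x, y)) = Θ (φ (-birkhoffSum h c m (h.symm^[m] y)) x, h.symm^[m] y) := by
  have h1 := H.iter m (φ (-birkhoffSum h c m (h.symm^[m] y)) x) (h.symm^[m] y)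
  have h2 : h^[m] (h.symm^[m] y) = y :=
    (Function.LeftInverse.iterate (g := h) (f := h.symm) h.apply_symm_apply m) y
  rw [← H.act.add, add_neg_cancel, H.act.zero, h2] at h1
  rw [← h1]
  exact (Function.LeftInverse.iterate (g := F.symm) (f := F) F.symm_apply_apply m) _

end

/-- uniform constants over a finite set -/
theorem unif {X : Type*} {S : Set X} (hS : S.Finite) (C μ : X → ℝ) (hC : ∀ x ∈ S, 0 < C x)
    (hμ0 : ∀ x ∈ S, 0 < μ x) (hμ1 : ∀ x ∈ S, μ x < 1) :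
    ∃ C' μ' : ℝ, 0 < C' ∧ 0 < μ' ∧ μ' < 1 ∧ ∀ x ∈ S, C x ≤ C' ∧ μ x ≤ μ' := by
  obtain ⟨K, hK⟩ := (hS.image C).bddAbove
  rcases S.eq_empty_or_nonempty with rfl | hne
  · exact ⟨1, 1 / 2, one_pos, by norm_num, by norm_num, fun x hx => hx.elim⟩
  · obtain ⟨x0, hx0, hmax⟩ := hS.exists_maximalFor μ S hne
    refine ⟨max K 1, μ x0, lt_max_of_lt_right one_pos, hμ0 _ hx0, hμ1 _ hx0, fun x hx =>
      ⟨(hK (mem_image_of_mem _ hx)).trans (le_max_left _ _), ?_⟩⟩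
    rcases le_total (μ x) (μ x0) with h1 | h1
    · exact h1
    · exact hmax hx h1

section

variable {d k b n : ℕ} {M B N : Type*} [TopologicalSpace M] [ChartedSpace (V k) M]
  [IsManifold (𝓡 k) ∞ M] [TopologicalSpace B] [ChartedSpace (V b) B] [IsManifold (𝓡 b) ∞ B]
  [TopologicalSpace N] [ChartedSpace (V n) N] [IsManifold (𝓡 n) ∞ N] {r : ℕ∞}
  {Θ : PDiff k b n M B N} {φ : V d → M → M} {h : DiffM b B r} {c : B → V d} {F : DiffM n N r}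

/-- the data at a fixed point of the action -/
structure AtFixA (φ : V d → M → M) (h : B → B) (c : B → V d) (q : TangentBundle (𝓡 k) M → ℝ)
    (x : M) (Es Eu : Submodule ℝ (V k)) (C μ : ℝ) : Prop where
  compl : IsCompl Es Eu
  inv_s : ∀ t, ∀ v ∈ Es, Dv k k (φ t) x v ∈ Es
  inv_u : ∀ t, ∀ v ∈ Eu, Dv k k (φ t) x v ∈ Eu
  posC : 0 < C
  posμ : 0 < μ
  ltμ : μ < 1
  est_s : ∀ (m : ℕ) (y : B), ∀ v ∈ Es,
    q ⟨x, Dv k k (φ (birkhoffSum h c m y)) x v⟩ ≤ C * μ ^ m * q ⟨x, v⟩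
  est_u : ∀ (m : ℕ) (y : B), ∀ v ∈ Eu,
    q ⟨x, Dv k k (φ (-birkhoffSum h c m y)) x v⟩ ≤ C * μ ^ m * q ⟨x, v⟩

/-- the direct sum of subspaces of the two factors -/
noncomputable def psub (Θ : PDiff k b n M B N) (E1 : M → Submodule ℝ (V k))
    (E2 : B → Submodule ℝ (V b)) (z : N) : Submodule ℝ (V n) :=
  (E1 (pr1 Θ z)).comap (Dv n k (pr1 Θ) z).toLinearMap ⊓
    (E2 (pr2 Θ z)).comap (Dv n b (pr2 Θ) z).toLinearMap

theorem mem_psub {E1 : M → Submodule ℝ (V k)} {E2 : B → Submodule ℝ (V b)} {z : N} {v : V n} :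
    v ∈ psub Θ E1 E2 z ↔ Dv n k (pr1 Θ) z v ∈ E1 (pr1 Θ z) ∧ Dv n b (pr2 Θ) z v ∈ E2 (pr2 Θ z) :=
  Iff.rfl

theorem psub_compl {E1 E1' : M → Submodule ℝ (V k)} {E2 E2' : B → Submodule ℝ (V b)} {z : N}
    (h1 : IsCompl (E1 (pr1 Θ z)) (E1' (pr1 Θ z))) (h2 : IsCompl (E2 (pr2 Θ z)) (E2' (pr2 Θ z))) :
    IsCompl (psub Θ E1 E2 z) (psub Θ E1' E2' z) := by
  constructor
  · rw [Submodule.disjoint_def]
    intro v hv hv'
    rw [mem_psub] at hv hv'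
    exact pr_inj Θ z v (Submodule.disjoint_def.1 h1.disjoint _ hv.1 hv'.1)
      (Submodule.disjoint_def.1 h2.disjoint _ hv.2 hv'.2)
  · rw [codisjoint_iff, eq_top_iff]
    intro v _
    have e1 : Dv n k (pr1 Θ) z v ∈ E1 (pr1 Θ z) ⊔ E1' (pr1 Θ z) := by rw [h1.sup_eq_top]; trivial
    have e2 : Dv n b (pr2 Θ) z v ∈ E2 (pr2 Θ z) ⊔ E2' (pr2 Θ z) := by rw [h2.sup_eq_top]; trivial
    obtain ⟨a, ha, a', ha', haa⟩ := Submodule.mem_sup.1 e1
    obtain ⟨e, he, e', he', hee⟩ := Submodule.mem_sup.1 e2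
    obtain ⟨w, hw1, hw2⟩ := pr_surj Θ z a e
    rw [Submodule.mem_sup]
    refine ⟨w, ?_, v - w, ?_, by abel⟩
    · rw [mem_psub, hw1, hw2]
      exact ⟨ha, he⟩
    · rw [mem_psub, map_sub, map_sub, hw1, hw2, ← haa, ← hee]
      rw [add_sub_cancel_left, add_sub_cancel_left]
      exact ⟨ha', he'⟩

/-- the action of a skew map on the tangent vectors over the fixed points -/
theorem push (hφ : IsAct d k M ⊤ φ) {G : N → N} {A : B → V d} {g : B → B}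
    (hG : MDifferentiable (𝓡 n) (𝓡 n) G) (hg : MDifferentiable (𝓡 b) (𝓡 b) g)
    (hmap : ∀ x y, G (Θ (x, y)) = Θ (φ (A y) x, g y)) {z : N}
    (hz : ∀ t, φ t (pr1 Θ z) = pr1 Θ z) (v : V n) :
    pr1 Θ (G z) = pr1 Θ z ∧ pr2 Θ (G z) = g (pr2 Θ z) ∧
    Dv n k (pr1 Θ) (G z) (Dv n n G z v) =
      Dv k k (φ (A (pr2 Θ z))) (pr1 Θ z) (Dv n k (pr1 Θ) z v) ∧
    Dv n b (pr2 Θ) (G z) (Dv n n G z v) = Dv b b g (pr2 Θ z) (Dv n b (pr2 Θ) z v) := by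
  have hd : ∀ t, MDifferentiable (𝓡 k) (𝓡 k) (φ t) := fun t =>
    (hφ.smooth.comp (contMDiff_const.prodMk contMDiff_id)).mdifferentiable (by simp)
  have e : Θ (pr1 Θ z, pr2 Θ z) = z := pr_eta Θ z
  have hGz : G z = Θ (pr1 Θ z, g (pr2 Θ z)) := by
    conv_lhs => rw [← e]
    rw [hmap, hz]
  refine ⟨by rw [hGz, pr1_apply], by rw [hGz, pr2_apply], ?_,
    base_deriv (A := fun y => φ (A y)) Θ hG hg hmap z v⟩
  have h1 := fibre_deriv (A := fun y => φ (A y)) Θ hG (fun y => hd _) hmap (x := pr1 Θ z)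
    (fun y => hz _) (pr2 Θ z) v
  rw [e] at h1
  exact h1

/-- the main estimate -/
theorem pnorm_est (hφ : IsAct d k M ⊤ φ) {q1 : TangentBundle (𝓡 k) M → ℝ}
    {q2 : TangentBundle (𝓡 b) B → ℝ} (hq1 : IsTanNorm k M q1) (hq2 : IsTanNorm b B q2)
    {G : N → N} {A : B → V d} {g : B → B}
    (hG : MDifferentiable (𝓡 n) (𝓡 n) G) (hg : MDifferentiable (𝓡 b) (𝓡 b) g)
    (hmap : ∀ x y, G (Θ (x, y)) = Θ (φ (A y) x, g y)) {z : N}
    (hz : ∀ t, φ t (pr1 Θ z) = pr1 Θ z) (v : V n) {C C' C'' μ μ' μ'' : ℝ} (m : ℕ) (hμ : 0 < μ)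
    (hμ' : 0 < μ') (hμμ : μ ≤ μ'') (hμμ' : μ' ≤ μ'') (hC : 0 < C) (hCC : C ≤ C'')
    (hCC' : C' ≤ C'')
    (h1 : q1 ⟨pr1 Θ z, Dv k k (φ (A (pr2 Θ z))) (pr1 Θ z) (Dv n k (pr1 Θ) z v)⟩ ≤
      C * μ ^ m * q1 ⟨pr1 Θ z, Dv n k (pr1 Θ) z v⟩)
    (h2 : q2 ⟨g (pr2 Θ z), Dv b b g (pr2 Θ z) (Dv n b (pr2 Θ) z v)⟩ ≤
      C' * μ' ^ m * q2 ⟨pr2 Θ z, Dv n b (pr2 Θ) z v⟩) :
    pnorm Θ q1 q2 ⟨G z, Dv n n G z v⟩ ≤ C'' * μ'' ^ m * pnorm Θ q1 q2 ⟨z, v⟩ := by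
  obtain ⟨p1, p2, p3, p4⟩ := push hφ hG hg hmap hz v
  show q1 ⟨pr1 Θ (G z), Dv n k (pr1 Θ) (G z) (Dv n n G z v)⟩ +
    q2 ⟨pr2 Θ (G z), Dv n b (pr2 Θ) (G z) (Dv n n G z v)⟩ ≤
    C'' * μ'' ^ m * (q1 ⟨pr1 Θ z, Dv n k (pr1 Θ) z v⟩ + q2 ⟨pr2 Θ z, Dv n b (pr2 Θ) z v⟩)
  rw [p3, p4, p1, p2, mul_add]
  have n1 := hq1.nonneg (pr1 Θ z) (Dv n k (pr1 Θ) z v)
  have n2 := hq2.nonneg (pr2 Θ z) (Dv n b (pr2 Θ) z v)
  apply add_le_add
  · refine h1.trans (mul_le_mul_of_nonneg_right ?_ n1)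
    exact mul_le_mul hCC (pow_le_pow_left₀ hμ.le hμμ m) (by positivity) (hC.le.trans hCC)
  · refine h2.trans (mul_le_mul_of_nonneg_right ?_ n2)
    exact mul_le_mul hCC' (pow_le_pow_left₀ hμ'.le hμμ' m) (by positivity) (hC.le.trans hCC)

/-- the set over the fixed points of the action is hyperbolic -/
theorem hyp_core [T2Space M] [CompactSpace M] (hr : 1 ≤ r) (H : IsActSkew Θ φ h c F)
    (hfin : {x | ∀ t, φ t x = x}.Finite) {q1 : TangentBundle (𝓡 k) M → ℝ} (hq1 : IsTanNorm k M q1)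
    (hyp : ∀ x, (∀ t, φ t x = x) → ∃ (Es Eu : Submodule ℝ (V k)) (C μ : ℝ),
      AtFixA φ h c q1 x Es Eu C μ)
    (hh : Hyperbolic h univ) : Hyperbolic F {z | ∀ t, φ t (pr1 Θ z) = pr1 Θ z} := by
  have hr' : (1 : WithTop ℕ∞) ≤ (r : WithTop ℕ∞) := by exact_mod_cast hr
  have hFs : ContMDiff (𝓡 n) (𝓡 n) 1 F := F.contMDiff.of_le hr'
  have hFs' : ContMDiff (𝓡 n) (𝓡 n) 1 F.symm := F.symm.contMDiff.of_le hr'
  have hhs : ContMDiff (𝓡 b) (𝓡 b) 1 h := h.contMDiff.of_le hr'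
  have hhs' : ContMDiff (𝓡 b) (𝓡 b) 1 h.symm := h.symm.contMDiff.of_le hr'
  obtain ⟨-, -, q2, E2, E2', C2, μ2, hq2, hsp, hC2, hμ2, hμ2', hs2, hu2⟩ := hh
  have hex : ∀ x : M, ∃ (Es Eu : Submodule ℝ (V k)) (C μ : ℝ), (∀ t, φ t x = x) →
      AtFixA φ h c q1 x Es Eu C μ := by
    intro x
    by_cases hx : ∀ t, φ t x = x
    · obtain ⟨Es, Eu, C, μ, h1⟩ := hyp x hx
      exact ⟨Es, Eu, C, μ, fun _ => h1⟩
    · exact ⟨⊥, ⊥, 0, 0, fun h1 => absurd h1 hx⟩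
  choose E1 E1' C1 μ1 h1 using hex
  obtain ⟨C, μ, hC, hμ0, hμ1, hCμ⟩ := unif hfin C1 μ1 (fun x hx => (h1 x hx).posC)
    (fun x hx => (h1 x hx).posμ) (fun x hx => (h1 x hx).ltμ)
  have hmapF : ∀ x y, F (Θ (x, y)) = Θ (φ (c y) x, h y) := H.map'
  have hmapF' : ∀ x y, F.symm (Θ (x, y)) = Θ (φ (-c (h.symm y)) x, h.symm y) := by
    intro x y
    have h2 := H.iter_symm 1 x y
    simpa [birkhoffSum_one] using h2
  have hFd := diff_of hFs
  have hFd' := diff_of hFs'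
  have hhd := diff_of hhs
  have hhd' := diff_of hhs'
  obtain ⟨K, hK⟩ : ∃ K : Set N, K = {z | ∀ t, φ t (pr1 Θ z) = pr1 Θ z} := ⟨_, rfl⟩
  rw [← hK]
  have memK : ∀ z, z ∈ K ↔ ∀ t, φ t (pr1 Θ z) = pr1 Θ z := fun z => by rw [hK]; rfl
  have hKc : IsClosed K := by
    have e : K = ⋂ t : V d, {z | φ t (pr1 Θ z) = pr1 Θ z} := by
      ext z
      rw [memK, mem_iInter]
      rfl
    rw [e]
    refine isClosed_iInter fun t => isClosed_eq ?_ (pr1_smooth Θ).continuous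
    exact (H.act.smooth.continuous.comp (continuous_const.prodMk continuous_id)).comp
      (pr1_smooth Θ).continuous
  have hKF : ∀ z ∈ K, F z ∈ K := by
    intro z hz
    rw [memK] at hz ⊢
    rw [(push H.act hFd hhd hmapF hz 0).1]
    exact hz
  have hKF' : ∀ z ∈ K, F.symm z ∈ K := by
    intro z hz
    rw [memK] at hz ⊢
    rw [(push (A := fun y => -c (h.symm y)) H.act hFd' hhd' hmapF' hz 0).1]
    exact hz
  have mapE : ∀ (E : M → Submodule ℝ (V k)) (E' : B → Submodule ℝ (V b)) (G : N → N) (A : B → V d)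
      (g : B → B), MDifferentiable (𝓡 n) (𝓡 n) G → MDifferentiable (𝓡 b) (𝓡 b) g →
      (∀ x y, G (Θ (x, y)) = Θ (φ (A y) x, g y)) →
      (∀ x, (∀ t, φ t x = x) → ∀ t, ∀ v ∈ E x, Dv k k (φ t) x v ∈ E x) →
      (∀ y, ∀ v ∈ E' y, Dv b b g y v ∈ E' (g y)) →
      ∀ z ∈ K, ∀ v ∈ psub Θ E E' z, Dv n n G z v ∈ psub Θ E E' (G z) := by
    intro E E' G A g hG hg hmap hE hE' z hz v hv
    rw [memK] at hz
    obtain ⟨p1, p2, p3, p4⟩ := push H.act hG hg hmap hz v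
    rw [mem_psub] at hv ⊢
    rw [p3, p4, p1, p2]
    exact ⟨hE _ hz _ _ hv.1, hE' _ _ hv.2⟩
  have base_map : ∀ (E : ∀ y : B, Submodule ℝ (TangentSpace (𝓡 b) y)),
      (∀ y ∈ (univ : Set B), (E y).map (mfderiv (𝓡 b) (𝓡 b) h y).toLinearMap = E (h y)) →
      (∀ y, ∀ v ∈ (E y : Submodule ℝ (V b)), Dv b b h y v ∈ (E (h y) : Submodule ℝ (V b))) ∧
      (∀ y, ∀ v ∈ (E y : Submodule ℝ (V b)),
        Dv b b h.symm y v ∈ (E (h.symm y) : Submodule ℝ (V b))) := by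
    intro E hE
    refine ⟨fun y v hv => ?_, fun y v hv => ?_⟩
    · have h2 := hE y (mem_univ y)
      rw [← h2]
      exact ⟨v, hv, rfl⟩
    · have h2 := hE (h.symm y) (mem_univ _)
      rw [h.apply_symm_apply] at h2
      rw [← h2] at hv
      obtain ⟨w, hw, hwv⟩ := hv
      have h3 : Dv b b h (h.symm y) w = v := hwv
      have h4 := Dv_inv hhs hhs' h.symm_apply_apply (h.symm y) w
      rw [h3, h.apply_symm_apply] at h4
      rw [h4]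
      exact hw
  obtain ⟨bs, bs'⟩ := base_map E2 hsp.map_s
  obtain ⟨bu, bu'⟩ := base_map E2' hsp.map_u
  refine hyperbolic_of hr F (Es := psub Θ E1 E2) (Eu := psub Θ E1' E2') hKc hKF hKF'
    (pnorm_norm Θ hq1 hq2) ?_ ?_ ?_ ?_ ?_ (C := max C C2) (μ := max μ μ2) (lt_max_of_lt_left hC)
    (lt_max_of_lt_left hμ0) (max_lt hμ1 hμ2') ?_ ?_
  · intro z hz
    rw [memK] at hz
    exact psub_compl (h1 _ hz).compl (hsp.compl _ (mem_univ _))
  · exact mapE E1 E2 F c h hFd hhd hmapF (fun x hx => (h1 x hx).inv_s) bs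
  · exact mapE E1' E2' F c h hFd hhd hmapF (fun x hx => (h1 x hx).inv_u) bu
  · exact mapE E1 E2 F.symm (fun y => -c (h.symm y)) h.symm hFd' hhd' hmapF'
      (fun x hx => (h1 x hx).inv_s) bs'
  · exact mapE E1' E2' F.symm (fun y => -c (h.symm y)) h.symm hFd' hhd' hmapF'
      (fun x hx => (h1 x hx).inv_u) bu'
  · intro z hz v hv m
    rw [memK] at hz
    rw [mem_psub] at hv
    obtain ⟨hc1, hc2⟩ := hCμ _ hz
    refine pnorm_est (A := fun y => birkhoffSum h c m y) (g := h^[m]) H.act hq1 hq2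
      (diff_of (iter_smooth hFs m)) (diff_of (iter_smooth hhs m)) (fun x y => H.iter m x y) hz v m
      (h1 _ hz).posμ hμ2 (hc2.trans (le_max_left _ _)) (le_max_right _ _) (h1 _ hz).posC
      (hc1.trans (le_max_left _ _)) (le_max_right _ _) ?_ ?_
    · exact (h1 _ hz).est_s m _ _ hv.1
    · exact hs2 _ (mem_univ _) _ hv.2 m
  · intro z hz v hv m
    rw [memK] at hz
    rw [mem_psub] at hv
    obtain ⟨hc1, hc2⟩ := hCμ _ hz
    refine pnorm_est (A := fun y => -birkhoffSum h c m (h.symm^[m] y)) (g := h.symm^[m]) H.act hq1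
      hq2 (diff_of (iter_smooth hFs' m)) (diff_of (iter_smooth hhs' m))
      (fun x y => H.iter_symm m x y) hz v m
      (h1 _ hz).posμ hμ2 (hc2.trans (le_max_left _ _)) (le_max_right _ _) (h1 _ hz).posC
      (hc1.trans (le_max_left _ _)) (le_max_right _ _) ?_ ?_
    · exact (h1 _ hz).est_u m _ _ hv.1
    · exact hu2 _ (mem_univ _) _ hv.2 m

end

end Run7.h619.AA
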