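import Pool.Agent.Run7.h619.AA.Conv

/-!
# The stable sets of a hyperbolic fixed point of an action of `ℝ^d`

If the maps `φ_s`, `s ∈ S`, expand and contract the same subspaces at the fixed point `x`, then the sets of
the points which are attracted to `x` by the products of these maps do not depend on the product.
-/

set_option autoImplicit false
set_option linter.unusedSectionVars false

open Filter Set Metric
open scoped Manifold ContDiff Topology

namespace Run7.h619.AA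

open Pool.Agent.H718R2.G Pool.Agent.TH80.OMS Run7.h619.SK Run7.h619.AX Run7.h619.LA

section

variable {d k : ℕ} {M : Type*} [TopologicalSpace M] [ChartedSpace (V k) M]
    [IsManifold (𝓡 k) ∞ M] {φ : V d → M → M}

/-- the action in a chart is smooth -/
theorem chart_smooth (hφ : IsAct d k M ⊤ φ) {x : M} (hx : ∀ t, φ t x = x) (s : V d) :
    ContDiffAt ℝ 1 (fun p : V d × V k => chartAt (V k) x (φ p.1 ((chartAt (V k) x).symm p.2)))
      (s, chartAt (V k) x x) := by
  obtain ⟨χ, hχ⟩ : ∃ χ, χ = chartAt (V k) x := ⟨_, rfl⟩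
  rw [← hχ]
  have hxs : x ∈ χ.source := by rw [hχ]; exact mem_chart_source _ _
  have hmax : χ ∈ IsManifold.maximalAtlas (𝓡 k) ∞ M := by
    rw [hχ]
    exact IsManifold.chart_mem_maximalAtlas x
  rw [← contMDiffAt_iff_contDiffAt]
  have h1 : ContMDiffAt 𝓘(ℝ, V d × V k) (𝓡 k) ∞ (fun p : V d × V k => χ.symm p.2) (s, χ x) := by
    have h2 : ContMDiffAt (𝓡 k) (𝓡 k) ∞ χ.symm (χ x) :=
      contMDiffAt_symm_of_mem_maximalAtlas hmax (χ.map_source hxs)
    exact ContMDiffAt.comp (s, χ x) h2 (contDiff_snd.contMDiff).contMDiffAt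
  have h2 : ContMDiffAt 𝓘(ℝ, V d × V k) ((𝓡 d).prod (𝓡 k)) ∞
      (fun p : V d × V k => (p.1, χ.symm p.2)) (s, χ x) :=
    ((contDiff_fst.contMDiff).contMDiffAt).prodMk h1
  have h3 : ContMDiffAt 𝓘(ℝ, V d × V k) (𝓡 k) ∞
      (fun p : V d × V k => φ p.1 (χ.symm p.2)) (s, χ x) :=
    ContMDiffAt.comp (s, χ x) (hφ.smooth.contMDiffAt) h2
  have h4 : ContMDiffAt (𝓡 k) (𝓡 k) ∞ χ (φ s (χ.symm (χ x))) := by
    rw [χ.left_inv hxs, hx]
    exact contMDiffAt_of_mem_maximalAtlas hmax hxs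
  have h5 := ContMDiffAt.comp (s, χ x) h4 h3
  exact h5.of_le (by exact_mod_cast le_top)

/-- the derivative in the chart -/
theorem chart_deriv (hφ : IsAct d k M ⊤ φ) {x : M} (hx : ∀ t, φ t x = x) (s : V d) :
    HasFDerivAt (fun v : V k => chartAt (V k) x (φ s ((chartAt (V k) x).symm v)))
      (Dv k k (φ s) x) (chartAt (V k) x x) := by
  have hd : MDifferentiable (𝓡 k) (𝓡 k) (φ s) :=
    (hφ.smooth.comp (contMDiff_const.prodMk contMDiff_id)).mdifferentiable (by simp)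
  have h1 := ((hd x).hasMFDerivAt).2
  rw [ModelWithCorners.range_eq_univ, hasFDerivWithinAt_univ] at h1
  have e : writtenInExtChartAt (𝓡 k) (𝓡 k) x (φ s) =
      fun v : V k => chartAt (V k) x (φ s ((chartAt (V k) x).symm v)) := by
    funext v
    simp only [writtenInExtChartAt, Function.comp_apply, mfld_simps, hx]
  rw [e] at h1
  have e2 : extChartAt (𝓡 k) x x = chartAt (V k) x x := by simp only [mfld_simps]
  rw [e2] at h1
  exact h1

/-- uniform first order approximation near the fixed point -/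
theorem local_est (hφ : IsAct d k M ⊤ φ) {x : M} (hx : ∀ t, φ t x = x) {S : Set (V d)}
    (hS : IsCompact S) {ε : ℝ} (hε : 0 < ε) : ∃ ρ : ℝ, 0 < ρ ∧ ∀ s ∈ S, ∀ v : V k,
      ‖v - chartAt (V k) x x‖ < ρ → v ∈ (chartAt (V k) x).target ∧
      φ s ((chartAt (V k) x).symm v) ∈ (chartAt (V k) x).source ∧ ∃ s₀ ∈ S,
      ‖chartAt (V k) x (φ s ((chartAt (V k) x).symm v)) - chartAt (V k) x x -
        Dv k k (φ s₀) x (v - chartAt (V k) x x)‖ ≤ ε * ‖v - chartAt (V k) x x‖ := by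
  obtain ⟨χ, hχ⟩ : ∃ χ, χ = chartAt (V k) x := ⟨_, rfl⟩
  rw [← hχ]
  have hxs : x ∈ χ.source := by rw [hχ]; exact mem_chart_source _ _
  obtain ⟨e0, he0⟩ : ∃ e0, e0 = χ x := ⟨_, rfl⟩
  rw [← he0]
  have hsymm : χ.symm e0 = x := by rw [he0, χ.left_inv hxs]
  have h0t : e0 ∈ χ.target := by rw [he0]; exact χ.map_source hxs
  refine hS.induction_on (p := fun T => ∃ ρ : ℝ, 0 < ρ ∧ ∀ s ∈ T, ∀ v : V k,
      ‖v - e0‖ < ρ → v ∈ χ.target ∧ φ s (χ.symm v) ∈ χ.source ∧ ∃ s₀ ∈ S,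
      ‖χ (φ s (χ.symm v)) - e0 - Dv k k (φ s₀) x (v - e0)‖ ≤ ε * ‖v - e0‖) ?_ ?_ ?_ ?_
  · exact ⟨1, one_pos, fun s hs => hs.elim⟩
  · rintro T T' hTT ⟨ρ, hρ, h⟩
    exact ⟨ρ, hρ, fun s hs => h s (hTT hs)⟩
  · rintro T T' ⟨ρ, hρ, h⟩ ⟨ρ', hρ', h'⟩
    refine ⟨min ρ ρ', lt_min hρ hρ', ?_⟩
    rintro s (hs | hs) v hv
    · exact h s hs v (hv.trans_le (min_le_left _ _))
    · exact h' s hs v (hv.trans_le (min_le_right _ _))
  · intro s₀ hs₀
    have hH := chart_smooth hφ hx s₀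
    rw [← hχ, ← he0] at hH
    have hstr := hH.hasStrictFDerivAt one_ne_zero
    obtain ⟨L, hL⟩ : ∃ L, L = fderiv ℝ (fun p : V d × V k => χ (φ p.1 (χ.symm p.2))) (s₀, e0) :=
      ⟨_, rfl⟩
    rw [← hL] at hstr
    have hLi : ∀ w : V k, L (0, w) = Dv k k (φ s₀) x w := by
      intro w
      have h1 : HasFDerivAt (fun v : V k => χ (φ s₀ (χ.symm v)))
          (L.comp (ContinuousLinearMap.inr ℝ (V d) (V k))) e0 := by
        have h2 : HasFDerivAt (fun v : V k => ((s₀, v) : V d × V k))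
          (ContinuousLinearMap.inr ℝ (V d) (V k)) e0 := hasFDerivAt_prodMk_right s₀ e0
        exact HasFDerivAt.comp e0 hstr.hasFDerivAt h2
      have h2 := chart_deriv hφ hx s₀
      rw [← hχ, ← he0] at h2
      have h3 := h1.unique h2
      exact congrArg (fun L => L w) h3
    have hlo := hstr.isLittleO.def hε
    have htend : Tendsto (fun p : V d × V k => (p, ((p.1, e0) : V d × V k))) (𝓝 (s₀, e0))
        (𝓝 ((s₀, e0), (s₀, e0))) := by
      have hc : Continuous fun p : V d × V k => (p, ((p.1, e0) : V d × V k)) := by fun_prop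
      exact hc.tendsto (s₀, e0)
    have h1 := htend.eventually hlo
    have h2 : ∀ᶠ p : V d × V k in 𝓝 (s₀, e0), p.2 ∈ χ.target :=
      (continuous_snd.tendsto (s₀, e0)).eventually (χ.open_target.mem_nhds h0t)
    have h3 : ∀ᶠ p : V d × V k in 𝓝 (s₀, e0), φ p.1 (χ.symm p.2) ∈ χ.source := by
      have hc : ContinuousAt (fun p : V d × V k => φ p.1 (χ.symm p.2)) (s₀, e0) := by
        have c1 : ContinuousAt (fun p : V d × V k => χ.symm p.2) (s₀, e0) :=
          ContinuousAt.comp (f := Prod.snd) (χ.continuousAt_symm h0t) continuousAt_snd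
        have c2 : ContinuousAt (fun p : V d × V k => (p.1, χ.symm p.2)) (s₀, e0) :=
          continuousAt_fst.prodMk c1
        exact ContinuousAt.comp (g := fun q : V d × M => φ q.1 q.2)
          hφ.smooth.continuous.continuousAt c2
      apply hc.eventually
      show ∀ᶠ z in 𝓝 (φ s₀ (χ.symm e0)), z ∈ χ.source
      rw [hsymm, hx]
      exact χ.open_source.mem_nhds hxs
    obtain ⟨δ, hδ, hball⟩ := Metric.eventually_nhds_iff.1 ((h1.and h2).and h3)
    refine ⟨ball s₀ δ, mem_nhdsWithin_of_mem_nhds (ball_mem_nhds s₀ hδ), δ, hδ, ?_⟩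
    intro s hs v hv
    have h4 := hball (y := (s, v)) (by
      rw [Prod.dist_eq]
      refine max_lt hs ?_
      show dist v e0 < δ
      rw [dist_eq_norm]
      exact hv)
    obtain ⟨⟨h5, h6⟩, h7⟩ := h4
    refine ⟨h6, h7, s₀, hs₀, ?_⟩
    simp only at h5
    rw [hsymm, hx, ← he0] at h5
    have h8 : ((s, v) : V d × V k) - (s, e0) = (0, v - e0) := by
      rw [Prod.mk_sub_mk, sub_self]
    rw [h8, hLi] at h5
    have h9 : ‖((0, v - e0) : V d × V k)‖ = ‖v - e0‖ := by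
      rw [Prod.norm_def]
      simp
    rw [h9] at h5
    exact h5

end

/-- the projections of a splitting -/
theorem exists_proj {E : Type*} [NormedAddCommGroup E] [NormedSpace ℝ E] [FiniteDimensional ℝ E]
    {Es Eu : Submodule ℝ E} (h : IsCompl Es Eu) : ∃ a b : E →L[ℝ] E, (∀ v, a v ∈ Es) ∧
      (∀ v, b v ∈ Eu) ∧ (∀ v, a v + b v = v) ∧
      ∀ v ∈ Es, ∀ w ∈ Eu, a (v + w) = v ∧ b (v + w) = w := by
  refine ⟨LinearMap.toContinuousLinearMap (Es.subtype ∘ₗ Es.projectionOnto Eu h),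
    LinearMap.toContinuousLinearMap (Eu.subtype ∘ₗ Eu.projectionOnto Es h.symm),
    fun v => (Es.projectionOnto Eu h v).2, fun v => (Eu.projectionOnto Es h.symm v).2,
    fun v => Submodule.projection_add_projection_eq_self h v, ?_⟩
  have key : ∀ v ∈ Es, ∀ w ∈ Eu, ((Es.projectionOnto Eu h (v + w) : Es) : E) = v ∧
      ((Eu.projectionOnto Es h.symm (v + w) : Eu) : E) = w := by
    intro v hv w hw
    have h1 : ((Es.projectionOnto Eu h (v + w) : Es) : E) +
      ((Eu.projectionOnto Es h.symm (v + w) : Eu) : E) = v + w :=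
      Submodule.projection_add_projection_eq_self h (v + w)
    have h2 : ((Es.projectionOnto Eu h (v + w) : Es) : E) - v =
        w - ((Eu.projectionOnto Es h.symm (v + w) : Eu) : E) := by
      rw [sub_eq_sub_iff_add_eq_add, h1, add_comm]
    have h3 : ((Es.projectionOnto Eu h (v + w) : Es) : E) - v = 0 := by
      apply Submodule.disjoint_def.1 h.disjoint
      · exact Es.sub_mem (Es.projectionOnto Eu h (v + w)).2 hv
      · rw [h2]
        exact Eu.sub_mem hw (Eu.projectionOnto Es h.symm (v + w)).2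
    have h4 := h3
    rw [h2] at h4
    exact ⟨sub_eq_zero.1 h3, (sub_eq_zero.1 h4).symm⟩
  exact key

section

variable {d k : ℕ} {M : Type*} [TopologicalSpace M] [ChartedSpace (V k) M]
    [IsManifold (𝓡 k) ∞ M] {φ : V d → M → M}

/-- a system of coordinates near the fixed point -/
structure Cone (φ : V d → M → M) (x : M) (S : Set (V d)) (src : Set M) (A B : M → ℝ) (ρ Λ : ℝ) :
    Prop where
  nhd : src ∈ 𝓝 x
  A0 : ∀ u, 0 ≤ A u
  B0 : ∀ u, 0 ≤ B u
  tend : ∀ u : ℕ → M, (∀ i, u i ∈ src) → Tendsto (fun i => max (A (u i)) (B (u i))) atTop (𝓝 0) →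
    Tendsto u atTop (𝓝 x)
  contA : Tendsto A (𝓝 x) (𝓝 0)
  contB : Tendsto B (𝓝 x) (𝓝 0)
  posρ : 0 < ρ
  posΛ : 1 ≤ Λ
  maps : ∀ s ∈ S, ∀ u ∈ src, max (A u) (B u) < ρ → φ s u ∈ src
  stepA : ∀ s ∈ S, ∀ u ∈ src, max (A u) (B u) < ρ → A (φ s u) ≤ 1 / 4 * max (A u) (B u)
  stepB : ∀ s ∈ S, ∀ u ∈ src, max (A u) (B u) < ρ →
    8 * B u - 1 / 8 * max (A u) (B u) ≤ B (φ s u)
  grow : ∀ s ∈ S, ∀ u ∈ src, max (A u) (B u) < ρ →
    max (A (φ s u)) (B (φ s u)) ≤ Λ * max (A u) (B u)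

theorem exists_cone (hφ : IsAct d k M ⊤ φ) {x : M} (hx : ∀ t, φ t x = x) {S : Set (V d)}
    (hSc : IsCompact S) {Es Eu : Submodule ℝ (V k)} (hsp : Spl (fun s => Dv k k (φ s) x) Es Eu)
    (hs8 : ∀ s ∈ S, ∀ v ∈ Es, ‖Dv k k (φ s) x v‖ ≤ 1 / 8 * ‖v‖)
    (hu8 : ∀ s ∈ S, ∀ v ∈ Eu, ‖Dv k k (φ (-s)) x v‖ ≤ 1 / 8 * ‖v‖) :
    ∃ (src : Set M) (A B : M → ℝ) (ρ Λ : ℝ), Cone φ x S src A B ρ Λ := by
  obtain ⟨a, b, ha, hb, hab, huniq⟩ := exists_proj hsp.compl
  have hP := grpP (k := k) hφ hx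
  obtain ⟨Λ₀, hΛ₀⟩ := hSc.exists_bound_of_continuousOn hP.cont.continuousOn
  obtain ⟨κ, hκ⟩ : ∃ κ, κ = max ‖a‖ ‖b‖ := ⟨_, rfl⟩
  have hκ0 : 0 ≤ κ := by rw [hκ]; exact le_max_of_le_left (norm_nonneg _)
  obtain ⟨ρ₀, hρ₀, hloc⟩ := local_est hφ hx hSc (ε := 1 / (16 * (κ + 1))) (by positivity)
  obtain ⟨χ, hχ⟩ : ∃ χ, χ = chartAt (V k) x := ⟨_, rfl⟩
  rw [← hχ] at hloc
  have hxs : x ∈ χ.source := by rw [hχ]; exact mem_chart_source _ _
  obtain ⟨w, hw⟩ : ∃ w : M → V k, w = fun u => χ u - χ x := ⟨_, rfl⟩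
  have hwc : Tendsto w (𝓝 x) (𝓝 0) := by
    have h1 : ContinuousAt w x := by
      rw [hw]
      exact (χ.continuousAt hxs).sub continuousAt_const
    have h2 : w x = 0 := by rw [hw]; exact sub_self _
    rw [← h2]
    exact h1
  obtain ⟨A, hA⟩ : ∃ A : M → ℝ, A = fun u => ‖a (w u)‖ := ⟨_, rfl⟩
  obtain ⟨B, hB⟩ : ∃ B : M → ℝ, B = fun u => ‖b (w u)‖ := ⟨_, rfl⟩
  have hnorm : ∀ u, ‖w u‖ ≤ 2 * max (A u) (B u) := by
    intro u
    have h1 : ‖w u‖ ≤ A u + B u := by
      conv_lhs => rw [← hab (w u)]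
      rw [hA, hB]
      exact norm_add_le _ _
    have h2 := le_max_left (A u) (B u)
    have h3 := le_max_right (A u) (B u)
    linarith
  have hcomm : ∀ s v, a (Dv k k (φ s) x v) = Dv k k (φ s) x (a v) ∧
      b (Dv k k (φ s) x v) = Dv k k (φ s) x (b v) := by
    intro s v
    have h1 := huniq _ (hsp.inv_s s (a v) (ha v)) _ (hsp.inv_u s (b v) (hb v))
    have h2 : Dv k k (φ s) x (a v) + Dv k k (φ s) x (b v) = Dv k k (φ s) x v := by
      rw [← map_add, hab]
    simp only [h2] at h1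
    exact h1
  have main : ∀ s ∈ S, ∀ u ∈ χ.source, max (A u) (B u) < ρ₀ / 2 → φ s u ∈ χ.source ∧
      A (φ s u) ≤ 1 / 4 * max (A u) (B u) ∧ 8 * B u - 1 / 8 * max (A u) (B u) ≤ B (φ s u) ∧
      B (φ s u) ≤ (|Λ₀| + 1) * max (A u) (B u) := by
    intro s hs u hu hmax
    have h1 := hloc s hs (χ u) (by
      have := hnorm u
      rw [hw] at this
      simp only at this
      linarith)
    rw [χ.left_inv hu] at h1
    obtain ⟨-, h2, s₀, hs₀, h3⟩ := h1
    have hwu : χ u - χ x = w u := by rw [hw]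
    have hwφ : χ (φ s u) - χ x = w (φ s u) := by rw [hw]
    rw [hwu, hwφ] at h3
    obtain ⟨e, he⟩ : ∃ e, e = w (φ s u) - Dv k k (φ s₀) x (w u) := ⟨_, rfl⟩
    rw [← he] at h3
    have h4 : w (φ s u) = Dv k k (φ s₀) x (w u) + e := by rw [he]; abel
    have hm0 : 0 ≤ max (A u) (B u) := le_max_of_le_left (by rw [hA]; exact norm_nonneg _)
    have he2 : ‖e‖ ≤ 1 / (8 * (κ + 1)) * max (A u) (B u) := by
      refine h3.trans ?_
      calc 1 / (16 * (κ + 1)) * ‖w u‖ ≤ 1 / (16 * (κ + 1)) * (2 * max (A u) (B u)) :=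
            mul_le_mul_of_nonneg_left (hnorm u) (by positivity)
        _ = 1 / (8 * (κ + 1)) * max (A u) (B u) := by
          field_simp
          ring
    have herr : ∀ c : V k →L[ℝ] V k, ‖c‖ ≤ κ → ‖c e‖ ≤ 1 / 8 * max (A u) (B u) := by
      intro c hc
      refine (c.le_opNorm e).trans ?_
      calc ‖c‖ * ‖e‖ ≤ κ * (1 / (8 * (κ + 1)) * max (A u) (B u)) :=
            mul_le_mul hc he2 (norm_nonneg _) hκ0
        _ = κ / (κ + 1) * (1 / 8 * max (A u) (B u)) := by
          field_simp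
        _ ≤ 1 * (1 / 8 * max (A u) (B u)) := by
          apply mul_le_mul_of_nonneg_right _ (by positivity)
          rw [div_le_one (by linarith)]
          linarith
        _ = _ := one_mul _
    have hea := herr a (by rw [hκ]; exact le_max_left _ _)
    have heb := herr b (by rw [hκ]; exact le_max_right _ _)
    have hAφ : A (φ s u) = ‖Dv k k (φ s₀) x (a (w u)) + a e‖ := by
      rw [hA]
      show ‖a (w (φ s u))‖ = _
      rw [h4, map_add, (hcomm _ _).1]
    have hBφ : B (φ s u) = ‖Dv k k (φ s₀) x (b (w u)) + b e‖ := by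
      rw [hB]
      show ‖b (w (φ s u))‖ = _
      rw [h4, map_add, (hcomm _ _).2]
    have hAu : ‖a (w u)‖ = A u := by rw [hA]
    have hBu : ‖b (w u)‖ = B u := by rw [hB]
    have hlA := le_max_left (A u) (B u)
    have hlB := le_max_right (A u) (B u)
    refine ⟨h2, ?_, ?_, ?_⟩
    · rw [hAφ]
      refine (norm_add_le _ _).trans ?_
      have h5 := hs8 s₀ hs₀ (a (w u)) (ha _)
      rw [hAu] at h5
      linarith
    · have h5 := hu8 s₀ hs₀ _ (hsp.inv_u s₀ (b (w u)) (hb _))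
      have h6 : Dv k k (φ (-s₀)) x (Dv k k (φ s₀) x (b (w u))) = b (w u) := hP.cancel s₀ _
      simp only [h6] at h5
      rw [hBu] at h5
      have h7 : ‖Dv k k (φ s₀) x (b (w u))‖ - ‖b e‖ ≤ B (φ s u) := by
        rw [hBφ]
        have h8 := norm_sub_norm_le (Dv k k (φ s₀) x (b (w u))) (-(b e))
        rw [norm_neg, sub_neg_eq_add] at h8
        exact h8
      linarith
    · rw [hBφ]
      refine (norm_add_le _ _).trans ?_
      have h5 : ‖Dv k k (φ s₀) x (b (w u))‖ ≤ |Λ₀| * B u := by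
        refine ((Dv k k (φ s₀) x).le_opNorm _).trans ?_
        rw [hBu]
        apply mul_le_mul_of_nonneg_right _ (by rw [hB]; exact norm_nonneg _)
        exact (hΛ₀ s₀ hs₀).trans (le_abs_self _)
      have h6 : |Λ₀| * B u ≤ |Λ₀| * max (A u) (B u) := mul_le_mul_of_nonneg_left hlB (abs_nonneg _)
      rw [add_mul, one_mul]
      linarith
  refine ⟨χ.source, A, B, ρ₀ / 2, |Λ₀| + 1, ⟨χ.open_source.mem_nhds hxs, ?_, ?_, ?_, ?_, ?_,
    half_pos hρ₀, ?_, fun s hs u hu hm => (main s hs u hu hm).1,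
    fun s hs u hu hm => (main s hs u hu hm).2.1, fun s hs u hu hm => (main s hs u hu hm).2.2.1, ?_⟩⟩
  · intro u
    rw [hA]
    exact norm_nonneg _
  · intro u
    rw [hB]
    exact norm_nonneg _
  · intro u hu hlim
    have h1 : Tendsto (fun i => w (u i)) atTop (𝓝 0) := by
      apply squeeze_zero_norm (fun i => hnorm (u i))
      have := hlim.const_mul 2
      rwa [mul_zero] at this
    have h2 : Tendsto (fun i => χ (u i)) atTop (𝓝 (χ x)) := by
      have h3 := h1.add_const (χ x)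
      rw [zero_add] at h3
      refine h3.congr fun i => ?_
      rw [hw]
      simp
    have h3 := (χ.continuousAt_symm (χ.map_source hxs)).tendsto.comp h2
    rw [χ.left_inv hxs] at h3
    refine h3.congr fun i => ?_
    exact χ.left_inv (hu i)
  · rw [hA]
    have h1 := ((a.continuous.tendsto 0).comp hwc).norm
    rw [map_zero, norm_zero] at h1
    exact h1
  · rw [hB]
    have h1 := ((b.continuous.tendsto 0).comp hwc).norm
    rw [map_zero, norm_zero] at h1
    exact h1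
  · have := abs_nonneg Λ₀
    linarith
  · intro s hs u hu hm
    obtain ⟨-, h1, -, h2⟩ := main s hs u hu hm
    have hm0 : 0 ≤ max (A u) (B u) := le_max_of_le_left (by rw [hA]; exact norm_nonneg _)
    refine max_le (h1.trans ?_) h2
    apply mul_le_mul_of_nonneg_right _ hm0
    have := abs_nonneg Λ₀
    linarith

end

section

variable {d k : ℕ} {M : Type*} [TopologicalSpace M] [ChartedSpace (V k) M]
    [IsManifold (𝓡 k) ∞ M] {φ : V d → M → M}

/-- the orbit of `u` under the products of the maps `φ_(s_0), φ_(s_1), ...` -/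
def orbS (φ : V d → M → M) (s : ℕ → V d) (i : ℕ) (u : M) : M := φ (∑ j ∈ Finset.range i, s j) u

theorem orbS_zero (hφ : IsAct d k M ⊤ φ) (s : ℕ → V d) (u : M) : orbS φ s 0 u = u := by
  unfold orbS
  rw [Finset.sum_range_zero, hφ.zero]

theorem orbS_succ (hφ : IsAct d k M ⊤ φ) (s : ℕ → V d) (i : ℕ) (u : M) :
    orbS φ s (i + 1) u = φ (s i) (orbS φ s i u) := by
  unfold orbS
  rw [Finset.sum_range_succ, add_comm, hφ.add]

theorem orbS_comm (hφ : IsAct d k M ⊤ φ) (s : ℕ → V d) (i : ℕ) (v : V d) (u : M) :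
    orbS φ s i (φ v u) = φ v (orbS φ s i u) := by
  unfold orbS
  rw [← hφ.add, ← hφ.add, add_comm]

theorem orbS_shift (hφ : IsAct d k M ⊤ φ) (s : ℕ → V d) (m i : ℕ) (u : M) :
    orbS φ (fun j => s (j + m)) i (orbS φ s m u) = orbS φ s (i + m) u := by
  induction i with
  | zero => rw [orbS_zero hφ, zero_add]
  | succ i ih =>
    rw [orbS_succ hφ, ih]
    have e : i + 1 + m = i + m + 1 := by ring
    rw [e, orbS_succ hφ]

variable {x : M} {S : Set (V d)} {src : Set M} {A B : M → ℝ} {ρ Λ : ℝ}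

theorem Cone.le (C : Cone φ x S src A B ρ Λ) (hφ : IsAct d k M ⊤ φ) {s : ℕ → V d}
    (hs : ∀ i, s i ∈ S) {u : M} (h : ∀ i, orbS φ s i u ∈ src ∧
      max (A (orbS φ s i u)) (B (orbS φ s i u)) < ρ) : B u ≤ A u := by
  by_contra hcon
  push Not at hcon
  have hBu : 0 < B u := (C.A0 u).trans_lt hcon
  have key : ∀ i : ℕ, A (orbS φ s i u) ≤ B (orbS φ s i u) ∧ 2 ^ i * B u ≤ B (orbS φ s i u) := by
    intro i
    induction i with
    | zero =>
      rw [orbS_zero hφ, pow_zero, one_mul]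
      exact ⟨hcon.le, le_rfl⟩
    | succ i ih =>
      obtain ⟨h1, h2⟩ := h i
      have h3 := C.stepA (s i) (hs i) _ h1 h2
      have h4 := C.stepB (s i) (hs i) _ h1 h2
      rw [max_eq_right ih.1] at h3 h4
      have h5 := C.B0 (orbS φ s i u)
      rw [orbS_succ hφ, pow_succ]
      constructor
      · linarith
      · have := ih.2
        nlinarith
  obtain ⟨n, hn⟩ := pow_unbounded_of_one_lt (ρ / B u) (one_lt_two : (1 : ℝ) < 2)
  rw [div_lt_iff₀ hBu] at hn
  have h1 := (key n).2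
  have h2 := (le_max_right _ _).trans_lt (h n).2
  linarith

/-- **The stable sets do not depend on the product.** -/
theorem Cone.indep (C : Cone φ x S src A B ρ Λ) (hφ : IsAct d k M ⊤ φ) (hx : ∀ t, φ t x = x)
    {s t : ℕ → V d} (hs : ∀ i, s i ∈ S) (ht : ∀ i, t i ∈ S) {u : M}
    (hu : Tendsto (fun i => orbS φ s i u) atTop (𝓝 x)) :
    Tendsto (fun i => orbS φ t i u) atTop (𝓝 x) := by
  have hΛ0 : 0 < Λ := lt_of_lt_of_le one_pos C.posΛ
  obtain ⟨η, hη⟩ : ∃ η, η = ρ / (2 * Λ) := ⟨_, rfl⟩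
  have hη0 : 0 < η := by rw [hη]; exact div_pos C.posρ (by positivity)
  have hΛη : Λ * η = ρ / 2 := by
    rw [hη]
    field_simp
  have hρ0 := C.posρ
  have hηρ : η < ρ := by
    have h1 : 1 * η ≤ Λ * η := mul_le_mul_of_nonneg_right C.posΛ hη0.le
    linarith
  obtain ⟨Good, hGood⟩ : ∃ Good : (ℕ → V d) → M → Prop, Good = fun s u => ∀ i,
      orbS φ s i u ∈ src ∧ max (A (orbS φ s i u)) (B (orbS φ s i u)) ≤ η := ⟨_, rfl⟩
  have hG : ∀ s u, Good s u ↔ ∀ i,
      orbS φ s i u ∈ src ∧ max (A (orbS φ s i u)) (B (orbS φ s i u)) ≤ η := by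
    intro s u
    rw [hGood]
  -- one step
  have hC : ∀ s : ℕ → V d, (∀ i, s i ∈ S) → ∀ u, Good s u → ∀ v ∈ S, φ v u ∈ src ∧
      max (A (φ v u)) (B (φ v u)) ≤ 1 / 4 * max (A u) (B u) := by
    intro s hs u hu v hv
    rw [hG] at hu
    have h0 := hu 0
    rw [orbS_zero hφ] at h0
    have h1 : ∀ i, orbS φ s i (φ v u) ∈ src ∧
        max (A (orbS φ s i (φ v u))) (B (orbS φ s i (φ v u))) < ρ := by
      intro i
      rw [orbS_comm hφ]
      obtain ⟨h2, h3⟩ := hu i
      refine ⟨C.maps v hv _ h2 (h3.trans_lt hηρ), ?_⟩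
      have h4 := C.grow v hv _ h2 (h3.trans_lt hηρ)
      have h5 : Λ * max (A (orbS φ s i u)) (B (orbS φ s i u)) ≤ Λ * η :=
        mul_le_mul_of_nonneg_left h3 hΛ0.le
      linarith
    have h2 := C.le hφ hs h1
    have h3 := C.stepA v hv u h0.1 (h0.2.trans_lt hηρ)
    refine ⟨C.maps v hv u h0.1 (h0.2.trans_lt hηρ), ?_⟩
    rw [max_eq_left h2]
    exact h3
  have hshift : ∀ (s : ℕ → V d) u i, Good s u → Good (fun j => s (j + i)) (orbS φ s i u) := by
    intro s u i hu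
    rw [hG] at hu ⊢
    intro j
    rw [orbS_shift hφ]
    exact hu _
  have hstep : ∀ s : ℕ → V d, (∀ i, s i ∈ S) → ∀ u, Good s u → ∀ v ∈ S, Good s (φ v u) := by
    intro s hs u hu v hv
    rw [hG]
    intro i
    rw [orbS_comm hφ]
    have h1 := hC (fun j => s (j + i)) (fun j => hs _) _ (hshift s u i hu) v hv
    refine ⟨h1.1, h1.2.trans ?_⟩
    rw [hG] at hu
    have h2 := (hu i).2
    have h3 : 0 ≤ max (A (orbS φ s i u)) (B (orbS φ s i u)) := le_max_of_le_left (C.A0 _)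
    linarith
  -- orbits of good points
  have hconv : ∀ s : ℕ → V d, (∀ i, s i ∈ S) → ∀ u, Good s u →
      Tendsto (fun i => orbS φ t i u) atTop (𝓝 x) := by
    intro s hs u hu
    have h1 : ∀ i : ℕ, Good s (orbS φ t i u) ∧
        max (A (orbS φ t i u)) (B (orbS φ t i u)) ≤ (1 / 4) ^ i * η := by
      intro i
      induction i with
      | zero =>
        rw [orbS_zero hφ, pow_zero, one_mul]
        refine ⟨hu, ?_⟩
        rw [hG] at hu
        have := (hu 0).2
        rwa [orbS_zero hφ] at this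
      | succ i ih =>
        rw [orbS_succ hφ]
        refine ⟨hstep s hs _ ih.1 _ (ht i), ?_⟩
        refine ((hC s hs _ ih.1 _ (ht i)).2).trans ?_
        rw [pow_succ]
        have := ih.2
        linarith
    refine C.tend _ (fun i => ?_) ?_
    · have h2 := (h1 i).1
      rw [hG] at h2
      have h3 := (h2 0).1
      rwa [orbS_zero hφ] at h3
    · refine squeeze_zero (fun i => le_max_of_le_left (C.A0 _)) (fun i => (h1 i).2) ?_
      have h2 : Tendsto (fun i : ℕ => (1 / 4 : ℝ) ^ i * η) atTop (𝓝 (0 * η)) :=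
        (tendsto_pow_atTop_nhds_zero_of_lt_one (by norm_num) (by norm_num)).mul_const η
      rwa [zero_mul] at h2
  have hev : ∀ᶠ i in atTop, orbS φ s i u ∈ src ∧
      max (A (orbS φ s i u)) (B (orbS φ s i u)) ≤ η := by
    have h1 := hu.eventually C.nhd
    have h2 := (C.contA.comp hu).eventually (gt_mem_nhds hη0)
    have h3 := (C.contB.comp hu).eventually (gt_mem_nhds hη0)
    filter_upwards [h1, h2, h3] with i h1 h2 h3
    exact ⟨h1, max_le (le_of_lt h2) (le_of_lt h3)⟩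
  obtain ⟨m, hm⟩ := eventually_atTop.1 hev
  have hgood : Good (fun j => s (j + m)) (orbS φ s m u) := by
    rw [hG]
    intro i
    rw [orbS_shift hφ]
    exact hm _ (by omega)
  have h1 := hconv _ (fun j => hs _) _ hgood
  have h2 : ∀ i, orbS φ t i u = φ (-(∑ j ∈ Finset.range m, s j)) (orbS φ t i (orbS φ s m u)) := by
    intro i
    rw [← orbS_comm hφ]
    congr 1
    unfold orbS
    rw [← hφ.add, neg_add_cancel, hφ.zero]
  have h3 : Continuous (φ (-(∑ j ∈ Finset.range m, s j))) :=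
    hφ.smooth.continuous.comp (continuous_const.prodMk continuous_id)
  have h4 := (h3.tendsto x).comp h1
  rw [hx] at h4
  refine h4.congr fun i => ?_
  exact (h2 i).symm

end

end Run7.h619.AA
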