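import Pool.Agent.Run7.h619.AA.Core
import Pool.Agent.Run7.h619.AX.NB
import Pool.Agent.Run7.h619.OM.StmA
import Pool.Agent.Y504.CO.Plug

/-!
# Axiom A for `Ω`-stable skew products over Anosov diffeomorphisms, with actions of `ℝ^d` in the fibres
-/

set_option autoImplicit false
set_option linter.unusedSectionVars false

open Filter Set Metric
open scoped Manifold ContDiff Topology

universe u v w

namespace Run7.h619.AA

open Pool.Agent.H718R2.G Pool.Agent.TH80.OMS Run7.h619.LA Run7.h619.SK Pool.Agent.W564.SC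
  Pool.Agent.Y504.CO Run7.h619.AX

section

variable {d k b n : ℕ} {M : Type v} {B : Type w} {N : Type u} [TopologicalSpace M]
  [ChartedSpace (V k) M] [IsManifold (𝓡 k) ∞ M] [TopologicalSpace B] [ChartedSpace (V b) B]
  [IsManifold (𝓡 b) ∞ B] [TopologicalSpace N] [ChartedSpace (V n) N] [IsManifold (𝓡 n) ∞ N]
  {r : ℕ∞} {Θ : PDiff k b n M B N} {φ : V d → M → M} {h : DiffM b B r} {c : B → V d}
  {F : DiffM n N r}

/-- the action on `N` -/
noncomputable def actN (Θ : PDiff k b n M B N) (φ : V d → M → M) (s : V d) (z : N) : N :=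
  Θ (φ s (pr1 Θ z), pr2 Θ z)

theorem actN_isAct (hφ : IsAct d k M ⊤ φ) : IsAct d n N ⊤ (actN Θ φ) where
  smooth := by
    have h3 : ContMDiff ((𝓡 d).prod (𝓡 n)) (𝓡 k) ∞ (fun q : V d × N => φ q.1 (pr1 Θ q.2)) :=
      hφ.smooth.comp (contMDiff_fst.prodMk ((pr1_smooth Θ).comp contMDiff_snd))
    exact Θ.contMDiff.comp (h3.prodMk ((pr2_smooth Θ).comp contMDiff_snd))
  zero y := by
    show Θ (φ 0 (pr1 Θ y), pr2 Θ y) = y
    rw [hφ.zero, pr_eta]
  add s t y := by
    show Θ (φ (s + t) (pr1 Θ y), pr2 Θ y) = Θ (φ s (pr1 Θ (Θ _)), pr2 Θ (Θ _))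
    rw [pr1_apply, pr2_apply, hφ.add]

theorem isAct_of_top {ψ : V d → N → N} (h : IsAct d n N ⊤ ψ) (r : ℕ∞) : IsAct d n N r ψ :=
  ⟨h.smooth.of_le (by exact_mod_cast le_top), h.zero, h.add⟩

theorem isSkewN (H : IsActSkew Θ φ h c F) : IsSkew F Θ (actN Θ φ) φ id h c where
  act := isAct_of_top (actN_isAct H.act) r
  emb := Θ.toHomeomorph.isEmbedding
  restr s x y := by
    unfold actN
    rw [pr1_apply, pr2_apply]
  contf := continuous_id
  contc := H.contc
  comm _ _ := rfl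
  map p := by
    obtain ⟨x, y⟩ := p
    unfold skew
    simp only [id]
    exact H.map x y

end

section

variable {d k b n : ℕ} {M : Type v} {B : Type w} {N : Type u} [TopologicalSpace M] [T2Space M]
  [CompactSpace M] [ChartedSpace (V k) M] [IsManifold (𝓡 k) ∞ M] [MetricSpace B] [CompactSpace B]
  [ChartedSpace (V b) B] [IsManifold (𝓡 b) ∞ B] [TopologicalSpace N] [T2Space N] [CompactSpace N]
  [ChartedSpace (V n) N] [IsManifold (𝓡 n) ∞ N]
  {r : ℕ∞} {Θ : PDiff k b n M B N} {φ : V d → M → M} {h : DiffM b B r} {c : B → V d}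
  {F : DiffM n N r}

/-- at the fixed points of the action the derivatives in the directions of the averages are
hyperbolic -/
theorem hyp_dir (hr : 1 ≤ r) (hF : OmegaStable n N r F) (H : IsActSkew Θ φ h c F) {x : M}
    (hx : ∀ s, φ s x = x) {a : V d} (ha : a ∈ closure (avgs h c)) (v : V k)
    (hv : ∃ C : ℝ, ∀ i : ℤ, ‖Dv k k (φ ((i : ℝ) • a)) x v‖ ≤ C) : v = 0 := by
  have := exists_metric k M
  let _ : MetricSpace M := TopologicalSpace.metrizableSpaceMetric M
  have hr' : (1 : WithTop ℕ∞) ≤ (r : WithTop ℕ∞) := by exact_mod_cast hr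
  have hsk : IsSkew F Θ (actN Θ φ) φ id h.toHomeomorph c := isSkewN H
  obtain ⟨U, hU, hFU, -, hhyp⟩ := stable_hyp Pool.Agent.Y504.CO.Plug.hF2 hr hF
  obtain ⟨a0, ha0, -⟩ := Metric.mem_closure_iff.1 ha 1 one_pos
  obtain ⟨q0, -⟩ := ha0
  have : Nonempty B := ⟨q0⟩
  have : Nonempty N := ⟨Θ (x, q0)⟩
  obtain ⟨κ, hκ, hfam⟩ := fam_mem hr (fam hsk.act F) hU (by
    show F.trans (dAct hsk.act 0) ∈ U
    rw [dAct_zero]
    exact hFU)
  obtain ⟨a1, ⟨q, m, hm, hq, ha1⟩, hd⟩ := Metric.mem_closure_iff.1 ha κ hκ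
  have hm0 : (0 : ℝ) < m := by exact_mod_cast hm
  obtain ⟨σ, hσ⟩ : ∃ σ : V d, σ = a - a1 := ⟨_, rfl⟩
  have hG := hfam σ (by rw [hσ, ← dist_eq_norm]; exact hd)
  have hsum : birkhoffSum h c m q + (m : ℝ) • σ = (m : ℝ) • a := by
    have h1 : birkhoffSum h c m q = (m : ℝ) • a1 := by
      rw [ha1, smul_smul, mul_inv_cancel₀ hm0.ne', one_smul]
    rw [h1, hσ, ← smul_add, add_sub_cancel]
  have hmap : ∀ x' : M, (F.trans (dAct hsk.act σ))^[m] (Θ (x', q)) = Θ (φ ((m : ℝ) • a) x', q) := by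
    intro x'
    have h1 := hsk.iter σ m x' q
    have h2 : birkhoffSum h.toHomeomorph c m q = birkhoffSum h c m q := rfl
    have h3 : h.toHomeomorph^[m] q = q := hq
    rw [h2, hsum, h3, Function.iterate_id] at h1
    exact h1
  have hper : Θ (x, q) ∈ Per (F.trans (dAct hsk.act σ)) := ⟨m, hm, by rw [hmap, hx]⟩
  have hGs : ContMDiff (𝓡 n) (𝓡 n) 1 (F.trans (dAct hsk.act σ)) :=
    (F.trans (dAct hsk.act σ)).contMDiff.of_le hr'
  have hP := grpP (k := k) H.act hx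
  obtain ⟨C, hC⟩ := hv
  have h1 := noBdd_fibre Θ hGs hm (A := φ ((m : ℝ) • a))
    ((H.act.smooth.comp (contMDiff_const.prodMk contMDiff_id)).mdifferentiable (by simp)) (hx _)
    (y := q) hmap (hhyp _ hG _ hper) (fun i : ℤ => Dv k k (φ (((i * m : ℤ) : ℝ) • a)) x v)
    ⟨C, fun i => hC _⟩ (fun i => by
      have h2 := hP.add ((m : ℝ) • a) (((i * m : ℤ) : ℝ) • a) v
      have h3 : (m : ℝ) • a + ((i * m : ℤ) : ℝ) • a = (((i + 1) * m : ℤ) : ℝ) • a := by
        rw [← add_smul]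
        congr 1
        push_cast
        ring
      rw [h3] at h2
      exact h2) 0
  have h4 := hP.zero v
  simp only [zero_mul, Int.cast_zero, zero_smul] at h1
  rw [← h4]
  exact h1

/-- **Axiom A.** -/
theorem axA_of_stable [Infinite B] (hr : 1 ≤ r) (hF : OmegaStable n N r F)
    (H : IsActSkew Θ φ h c F) (hh : Anosov h) (hs : ShadowPer h) (hT : TransChain h) :
    AxA F ∧ {x | ∀ s, φ s x = x}.Finite ∧ ∀ x y, Θ.pt x y ∈ Omega F ↔ ∀ s, φ s x = x := by
  have := exists_metric k M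
  let _ : MetricSpace M := TopologicalSpace.metrizableSpaceMetric M
  have hsk : IsSkew F Θ (actN Θ φ) φ id h.toHomeomorph c := isSkewN H
  have hact : IsAct d n N ⊤ (actN Θ φ) := actN_isAct H.act
  have hcon := skew_concl hr hF hsk hact hs hT
  have hfin : {x | ∀ s, φ s x = x}.Finite := hcon.finite fun _ => rfl
  have hsurj : Function.Surjective Θ := Θ.surjective
  have hOm : ∀ x y, Θ (x, y) ∈ Omega F ↔ ∀ s, φ s x = x := by
    intro x y
    constructor
    · intro hz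
      exact hcon.fixed _ _ ((nonWand_iff hsk hsurj _).1 hz)
    · intro hz
      exact (nonWand_iff hsk hsurj _).2 (hcon.nonwand (fun _ => rfl) _ _ hz).1
  have hOm' : Omega F = {z | ∀ s, φ s (pr1 Θ z) = pr1 Θ z} := by
    ext z
    conv_lhs => rw [← pr_eta Θ z]
    exact hOm _ _
  refine ⟨(axA_iff hr F).2 ⟨?_, ?_⟩, hfin, hOm⟩
  · rw [hOm']
    obtain ⟨q1, hq1⟩ := exists_norm (k := k) (M := M)
    refine hyp_core hr H hfin hq1 ?_ ((hyperbolic_iff hr h univ).1 hh)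
    intro x hx
    have hP := grpP (k := k) H.act hx
    have hs' : PerShadow h.toHomeomorph := hs
    have hT' : ChainTrans h.toHomeomorph := hT
    obtain ⟨Es, Eu, hS, C1, μ, hC1, hμ0, hμ1, hes, heu⟩ := coc_est hP (h := h.toHomeomorph) hs' hT'
      H.contc (fun a ha v hv => hyp_dir hr hF H hx ha v hv)
    obtain ⟨c1, c2, hc1, hc2, heq⟩ := hq1.equiv x
    have conv : ∀ (m : ℕ) (u v : V k), ‖u‖ ≤ C1 * μ ^ m * ‖v‖ →
        q1 ⟨x, u⟩ ≤ c2 * C1 / c1 * μ ^ m * q1 ⟨x, v⟩ := by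
      intro m u v huv
      have h1 := (heq u).2
      have h2 := (heq v).1
      have h4 : c2 * C1 / c1 * μ ^ m * (c1 * ‖v‖) ≤ c2 * C1 / c1 * μ ^ m * q1 ⟨x, v⟩ :=
        mul_le_mul_of_nonneg_left h2 (by positivity)
      have h5 : c2 * C1 / c1 * μ ^ m * (c1 * ‖v‖) = c2 * (C1 * μ ^ m * ‖v‖) := by
        field_simp
      have h6 := mul_le_mul_of_nonneg_left huv hc2.le
      linarith
    exact ⟨Es, Eu, c2 * C1 / c1, μ, hS.compl, hS.inv_s, hS.inv_u, by positivity, hμ0, hμ1,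
      fun m y v hv => conv m _ _ (hes y m v hv), fun m y v hv => conv m _ _ (heu y m v hv)⟩
  · rw [(hcon.omega hsurj).1]

end

end Run7.h619.AA
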